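import Pool.Agent.Helper56.Un.E8Stmts

set_option autoImplicit false

/-!
# MP_8410ab_nt, Eisenstein lattice `E₈`: two central translates together (module E_PAIR)
-/

namespace Pool.Agent.Helper19.Un

/-! ### polynomial inequalities (Bernstein certificates) -/

theorem epair_i1_q_0 (u v x y : ℝ) (hu : 0 ≤ u) (hv : 0 ≤ v) (hx : 0 ≤ x) (hy : 0 ≤ y) :
    0 ≤
    (48000 / 961) * v ^ 2 * y ^ 4 + (144000 / 961) * v ^ 2 * x ^ 1 * y ^ 3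
      + (168000 / 961) * v ^ 2 * x ^ 2 * y ^ 2 + (268000 / 961) * v ^ 2 * x ^ 3 * y ^ 1
      + (174500 / 961) * v ^ 2 * x ^ 4 + (155520 / 961) * u ^ 1 * v ^ 1 * y ^ 4
      + (496320 / 961) * u ^ 1 * v ^ 1 * x ^ 1 * y ^ 3
      + (390560 / 961) * u ^ 1 * v ^ 1 * x ^ 2 * y ^ 2
      + (258240 / 961) * u ^ 1 * v ^ 1 * x ^ 3 * y ^ 1 + (165480 / 961) * u ^ 1 * v ^ 1 * x ^ 4
      + (629856 / 4805) * u ^ 2 * y ^ 4 + (2130624 / 4805) * u ^ 2 * x ^ 1 * y ^ 3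
      + (1666336 / 4805) * u ^ 2 * x ^ 2 * y ^ 2 + (320224 / 4805) * u ^ 2 * x ^ 3 * y ^ 1
      + (47156 / 4805) * u ^ 2 * x ^ 4 := by
  positivity

theorem epair_i1_r_0 (a x : ℝ) (h1 : 1 / 2 ≤ a) (h2 : a ≤ 81 / 100) (h3 : 0 ≤ x) (h4 : x ≤ 1 / 2) :
    2 * (86 / 5) * (a - x / 2 + x ^ 2 / 4) ^ 2 ≤ (89 / 5) * a ^ 2 + 89 / 5 * (a - x) ^ 2 := by
  have h := epair_i1_q_0 (a - (1 / 2)) ((81 / 100) - a) (x - 0) ((1 / 2) - x) (by linarith) (by linarith) (by linarith)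
    (by linarith)
  have e : (89 / 5) * a ^ 2 + 89 / 5 * (a - x) ^ 2 - 2 * (86 / 5) * (a - x / 2 + x ^ 2 / 4) ^ 2 =
    (48000 / 961) * ((81 / 100) - a) ^ 2 * ((1 / 2) - x) ^ 4
      + (144000 / 961) * ((81 / 100) - a) ^ 2 * (x - 0) ^ 1 * ((1 / 2) - x) ^ 3
      + (168000 / 961) * ((81 / 100) - a) ^ 2 * (x - 0) ^ 2 * ((1 / 2) - x) ^ 2
      + (268000 / 961) * ((81 / 100) - a) ^ 2 * (x - 0) ^ 3 * ((1 / 2) - x) ^ 1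
      + (174500 / 961) * ((81 / 100) - a) ^ 2 * (x - 0) ^ 4
      + (155520 / 961) * (a - (1 / 2)) ^ 1 * ((81 / 100) - a) ^ 1 * ((1 / 2) - x) ^ 4
      + (496320 / 961) * (a - (1 / 2)) ^ 1 * ((81 / 100) - a) ^ 1 * (x - 0) ^ 1 * ((1 / 2) - x) ^ 3
      + (390560 / 961) * (a - (1 / 2)) ^ 1 * ((81 / 100) - a) ^ 1 * (x - 0) ^ 2 * ((1 / 2) - x) ^ 2
      + (258240 / 961) * (a - (1 / 2)) ^ 1 * ((81 / 100) - a) ^ 1 * (x - 0) ^ 3 * ((1 / 2) - x) ^ 1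
      + (165480 / 961) * (a - (1 / 2)) ^ 1 * ((81 / 100) - a) ^ 1 * (x - 0) ^ 4
      + (629856 / 4805) * (a - (1 / 2)) ^ 2 * ((1 / 2) - x) ^ 4
      + (2130624 / 4805) * (a - (1 / 2)) ^ 2 * (x - 0) ^ 1 * ((1 / 2) - x) ^ 3
      + (1666336 / 4805) * (a - (1 / 2)) ^ 2 * (x - 0) ^ 2 * ((1 / 2) - x) ^ 2
      + (320224 / 4805) * (a - (1 / 2)) ^ 2 * (x - 0) ^ 3 * ((1 / 2) - x) ^ 1
      + (47156 / 4805) * (a - (1 / 2)) ^ 2 * (x - 0) ^ 4 := by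
    ring
  rw [← e] at h
  linarith

theorem epair_i1_q_1 (u v x y : ℝ) (hu : 0 ≤ u) (hv : 0 ≤ v) (hx : 0 ≤ x) (hy : 0 ≤ y) :
    0 ≤
    (174500 / 961) * v ^ 2 * y ^ 4 + (1128000 / 961) * v ^ 2 * x ^ 1 * y ^ 3
      + (2748000 / 961) * v ^ 2 * x ^ 2 * y ^ 2 + (2896000 / 961) * v ^ 2 * x ^ 3 * y ^ 1
      + (1080000 / 961) * v ^ 2 * x ^ 4 + (165480 / 961) * u ^ 1 * v ^ 1 * y ^ 4
      + (1065600 / 961) * u ^ 1 * v ^ 1 * x ^ 1 * y ^ 3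
      + (2812640 / 961) * u ^ 1 * v ^ 1 * x ^ 2 * y ^ 2
      + (3262400 / 961) * u ^ 1 * v ^ 1 * x ^ 3 * y ^ 1
      + (1306880 / 961) * u ^ 1 * v ^ 1 * x ^ 4 + (47156 / 4805) * u ^ 2 * y ^ 4
      + (57024 / 4805) * u ^ 2 * x ^ 1 * y ^ 3 + (876736 / 4805) * u ^ 2 * x ^ 2 * y ^ 2
      + (2201024 / 4805) * u ^ 2 * x ^ 3 * y ^ 1 + (1226656 / 4805) * u ^ 2 * x ^ 4 := by
  positivity

theorem epair_i1_r_1 (a x : ℝ) (h1 : 1 / 2 ≤ a) (h2 : a ≤ 81 / 100) (h3 : 1 / 2 ≤ x) (h4 : x ≤ 1) :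
    2 * (86 / 5) * (a - x / 2 + x ^ 2 / 4) ^ 2 ≤ (89 / 5) * a ^ 2 + 89 / 5 * (a - x) ^ 2 := by
  have h := epair_i1_q_1 (a - (1 / 2)) ((81 / 100) - a) (x - (1 / 2)) (1 - x) (by linarith) (by linarith) (by linarith)
    (by linarith)
  have e : (89 / 5) * a ^ 2 + 89 / 5 * (a - x) ^ 2 - 2 * (86 / 5) * (a - x / 2 + x ^ 2 / 4) ^ 2 =
    (174500 / 961) * ((81 / 100) - a) ^ 2 * (1 - x) ^ 4
      + (1128000 / 961) * ((81 / 100) - a) ^ 2 * (x - (1 / 2)) ^ 1 * (1 - x) ^ 3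
      + (2748000 / 961) * ((81 / 100) - a) ^ 2 * (x - (1 / 2)) ^ 2 * (1 - x) ^ 2
      + (2896000 / 961) * ((81 / 100) - a) ^ 2 * (x - (1 / 2)) ^ 3 * (1 - x) ^ 1
      + (1080000 / 961) * ((81 / 100) - a) ^ 2 * (x - (1 / 2)) ^ 4
      + (165480 / 961) * (a - (1 / 2)) ^ 1 * ((81 / 100) - a) ^ 1 * (1 - x) ^ 4
      + (1065600 / 961) * (a - (1 / 2)) ^ 1 * ((81 / 100) - a) ^ 1 * (x - (1 / 2)) ^ 1 * (1 - x) ^ 3
      + (2812640 / 961) * (a - (1 / 2)) ^ 1 * ((81 / 100) - a) ^ 1 * (x - (1 / 2)) ^ 2 * (1 - x) ^ 2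
      + (3262400 / 961) * (a - (1 / 2)) ^ 1 * ((81 / 100) - a) ^ 1 * (x - (1 / 2)) ^ 3 * (1 - x) ^ 1
      + (1306880 / 961) * (a - (1 / 2)) ^ 1 * ((81 / 100) - a) ^ 1 * (x - (1 / 2)) ^ 4
      + (47156 / 4805) * (a - (1 / 2)) ^ 2 * (1 - x) ^ 4
      + (57024 / 4805) * (a - (1 / 2)) ^ 2 * (x - (1 / 2)) ^ 1 * (1 - x) ^ 3
      + (876736 / 4805) * (a - (1 / 2)) ^ 2 * (x - (1 / 2)) ^ 2 * (1 - x) ^ 2
      + (2201024 / 4805) * (a - (1 / 2)) ^ 2 * (x - (1 / 2)) ^ 3 * (1 - x) ^ 1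
      + (1226656 / 4805) * (a - (1 / 2)) ^ 2 * (x - (1 / 2)) ^ 4 := by
    ring
  rw [← e] at h
  linarith

theorem epair_i1 (a x : ℝ) (h1 : 1 / 2 ≤ a) (h2 : a ≤ 81 / 100) (h3 : 0 ≤ x) (h4 : x ≤ 1) :
    2 * (86 / 5) * (a - x / 2 + x ^ 2 / 4) ^ 2 ≤ (89 / 5) * a ^ 2 + 89 / 5 * (a - x) ^ 2 := by
  rcases le_total x (1 / 2) with h | h
  · exact epair_i1_r_0 a x h1 h2 h3 h
  · exact epair_i1_r_1 a x h1 h2 h h4

theorem epair_i2_q (u v x y : ℝ) (hu : 0 ≤ u) (hv : 0 ≤ v) (hx : 0 ≤ x) (hy : 0 ≤ y) :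
    0 ≤
    (1738665 / 4913) * v ^ 3 * y ^ 5 + (7721325 / 4913) * v ^ 3 * x ^ 1 * y ^ 4
      + (8766650 / 4913) * v ^ 3 * x ^ 2 * y ^ 3 + (5958650 / 4913) * v ^ 3 * x ^ 3 * y ^ 2
      + (5659325 / 4913) * v ^ 3 * x ^ 4 * y ^ 1 + (2484665 / 4913) * v ^ 3 * x ^ 5
      + (5945805 / 4913) * u ^ 1 * v ^ 2 * y ^ 5
      + (26609025 / 4913) * u ^ 1 * v ^ 2 * x ^ 1 * y ^ 4
      + (29858050 / 4913) * u ^ 1 * v ^ 2 * x ^ 2 * y ^ 3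
      + (15178050 / 4913) * u ^ 1 * v ^ 2 * x ^ 3 * y ^ 2
      + (11039025 / 4913) * u ^ 1 * v ^ 2 * x ^ 4 * y ^ 1
      + (5055805 / 4913) * u ^ 1 * v ^ 2 * x ^ 5 + (6752200 / 4913) * u ^ 2 * v ^ 1 * y ^ 5
      + (30437000 / 4913) * u ^ 2 * v ^ 1 * x ^ 1 * y ^ 4
      + (34182000 / 4913) * u ^ 2 * v ^ 1 * x ^ 2 * y ^ 3
      + (13246000 / 4913) * u ^ 2 * v ^ 1 * x ^ 3 * y ^ 2
      + (5483000 / 4913) * u ^ 2 * v ^ 1 * x ^ 4 * y ^ 1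
      + (2734200 / 4913) * u ^ 2 * v ^ 1 * x ^ 5 + (2545060 / 4913) * u ^ 3 * y ^ 5
      + (11549300 / 4913) * u ^ 3 * x ^ 1 * y ^ 4 + (13090600 / 4913) * u ^ 3 * x ^ 2 * y ^ 3
      + (4026600 / 4913) * u ^ 3 * x ^ 3 * y ^ 2 + (103300 / 4913) * u ^ 3 * x ^ 4 * y ^ 1
      + (163060 / 4913) * u ^ 3 * x ^ 5 := by
  positivity

theorem epair_i2_r (a x : ℝ) (h1 : 81 / 100 ≤ a) (h2 : a ≤ 49 / 50) (h3 : 0 ≤ x) (h4 : x ≤ 1) :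
    2 * (86 / 5) * (a - x / 2 + x ^ 2 / 4) ^ 2 ≤ (77 / 4) * a ^ 2 + 89 / 5 * (a - x) ^ 2 := by
  have h := epair_i2_q (a - (81 / 100)) ((49 / 50) - a) (x - 0) (1 - x) (by linarith) (by linarith) (by linarith)
    (by linarith)
  have e : (77 / 4) * a ^ 2 + 89 / 5 * (a - x) ^ 2 - 2 * (86 / 5) * (a - x / 2 + x ^ 2 / 4) ^ 2 =
    (1738665 / 4913) * ((49 / 50) - a) ^ 3 * (1 - x) ^ 5
      + (7721325 / 4913) * ((49 / 50) - a) ^ 3 * (x - 0) ^ 1 * (1 - x) ^ 4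
      + (8766650 / 4913) * ((49 / 50) - a) ^ 3 * (x - 0) ^ 2 * (1 - x) ^ 3
      + (5958650 / 4913) * ((49 / 50) - a) ^ 3 * (x - 0) ^ 3 * (1 - x) ^ 2
      + (5659325 / 4913) * ((49 / 50) - a) ^ 3 * (x - 0) ^ 4 * (1 - x) ^ 1
      + (2484665 / 4913) * ((49 / 50) - a) ^ 3 * (x - 0) ^ 5
      + (5945805 / 4913) * (a - (81 / 100)) ^ 1 * ((49 / 50) - a) ^ 2 * (1 - x) ^ 5
      + (26609025 / 4913) * (a - (81 / 100)) ^ 1 * ((49 / 50) - a) ^ 2 * (x - 0) ^ 1 * (1 - x) ^ 4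
      + (29858050 / 4913) * (a - (81 / 100)) ^ 1 * ((49 / 50) - a) ^ 2 * (x - 0) ^ 2 * (1 - x) ^ 3
      + (15178050 / 4913) * (a - (81 / 100)) ^ 1 * ((49 / 50) - a) ^ 2 * (x - 0) ^ 3 * (1 - x) ^ 2
      + (11039025 / 4913) * (a - (81 / 100)) ^ 1 * ((49 / 50) - a) ^ 2 * (x - 0) ^ 4 * (1 - x) ^ 1
      + (5055805 / 4913) * (a - (81 / 100)) ^ 1 * ((49 / 50) - a) ^ 2 * (x - 0) ^ 5
      + (6752200 / 4913) * (a - (81 / 100)) ^ 2 * ((49 / 50) - a) ^ 1 * (1 - x) ^ 5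
      + (30437000 / 4913) * (a - (81 / 100)) ^ 2 * ((49 / 50) - a) ^ 1 * (x - 0) ^ 1 * (1 - x) ^ 4
      + (34182000 / 4913) * (a - (81 / 100)) ^ 2 * ((49 / 50) - a) ^ 1 * (x - 0) ^ 2 * (1 - x) ^ 3
      + (13246000 / 4913) * (a - (81 / 100)) ^ 2 * ((49 / 50) - a) ^ 1 * (x - 0) ^ 3 * (1 - x) ^ 2
      + (5483000 / 4913) * (a - (81 / 100)) ^ 2 * ((49 / 50) - a) ^ 1 * (x - 0) ^ 4 * (1 - x) ^ 1
      + (2734200 / 4913) * (a - (81 / 100)) ^ 2 * ((49 / 50) - a) ^ 1 * (x - 0) ^ 5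
      + (2545060 / 4913) * (a - (81 / 100)) ^ 3 * (1 - x) ^ 5
      + (11549300 / 4913) * (a - (81 / 100)) ^ 3 * (x - 0) ^ 1 * (1 - x) ^ 4
      + (13090600 / 4913) * (a - (81 / 100)) ^ 3 * (x - 0) ^ 2 * (1 - x) ^ 3
      + (4026600 / 4913) * (a - (81 / 100)) ^ 3 * (x - 0) ^ 3 * (1 - x) ^ 2
      + (103300 / 4913) * (a - (81 / 100)) ^ 3 * (x - 0) ^ 4 * (1 - x) ^ 1
      + (163060 / 4913) * (a - (81 / 100)) ^ 3 * (x - 0) ^ 5 := by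
    ring
  rw [← e] at h
  linarith

theorem epair_i2 (a x : ℝ) (h1 : 81 / 100 ≤ a) (h2 : a ≤ 49 / 50) (h3 : 0 ≤ x) (h4 : x ≤ 1) :
    2 * (86 / 5) * (a - x / 2 + x ^ 2 / 4) ^ 2 ≤ (77 / 4) * a ^ 2 + 89 / 5 * (a - x) ^ 2 := by
  exact epair_i2_r a x h1 h2 h3 h4

theorem epair_i3_q (u v x y : ℝ) (hu : 0 ≤ u) (hv : 0 ≤ v) (hx : 0 ≤ x) (hy : 0 ≤ y) :
    0 ≤
    (3332 / 5) * v ^ 2 * y ^ 4 + (12128 / 5) * v ^ 2 * x ^ 1 * y ^ 3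
      + (420408 / 245) * v ^ 2 * x ^ 2 * y ^ 2 + (141072 / 245) * v ^ 2 * x ^ 3 * y ^ 1
      + (44168 / 245) * v ^ 2 * x ^ 4 + 1428 * u ^ 1 * v ^ 1 * y ^ 4
      + (36504 / 7) * u ^ 1 * v ^ 1 * x ^ 1 * y ^ 3
      + (181592 / 49) * u ^ 1 * v ^ 1 * x ^ 2 * y ^ 2
      + (48488 / 49) * u ^ 1 * v ^ 1 * x ^ 3 * y ^ 1 + (9452 / 49) * u ^ 1 * v ^ 1 * x ^ 4
      + 765 * u ^ 2 * y ^ 4 + (19620 / 7) * u ^ 2 * x ^ 1 * y ^ 3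
      + (98510 / 49) * u ^ 2 * x ^ 2 * y ^ 2 + (20940 / 49) * u ^ 2 * x ^ 3 * y ^ 1
      + (785 / 49) * u ^ 2 * x ^ 4 := by
  positivity

theorem epair_i3_r (a x : ℝ) (h1 : 49 / 50 ≤ a) (h2 : a ≤ 21 / 20) (h3 : 0 ≤ x) (h4 : x ≤ 1) :
    2 * (86 / 5) * (a - x / 2 + x ^ 2 / 4) ^ 2 ≤ 20 * a ^ 2 + 89 / 5 * (a - x) ^ 2 := by
  have h := epair_i3_q (a - (49 / 50)) ((21 / 20) - a) (x - 0) (1 - x) (by linarith) (by linarith) (by linarith)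
    (by linarith)
  have e : 20 * a ^ 2 + 89 / 5 * (a - x) ^ 2 - 2 * (86 / 5) * (a - x / 2 + x ^ 2 / 4) ^ 2 =
    (3332 / 5) * ((21 / 20) - a) ^ 2 * (1 - x) ^ 4
      + (12128 / 5) * ((21 / 20) - a) ^ 2 * (x - 0) ^ 1 * (1 - x) ^ 3
      + (420408 / 245) * ((21 / 20) - a) ^ 2 * (x - 0) ^ 2 * (1 - x) ^ 2
      + (141072 / 245) * ((21 / 20) - a) ^ 2 * (x - 0) ^ 3 * (1 - x) ^ 1
      + (44168 / 245) * ((21 / 20) - a) ^ 2 * (x - 0) ^ 4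
      + 1428 * (a - (49 / 50)) ^ 1 * ((21 / 20) - a) ^ 1 * (1 - x) ^ 4
      + (36504 / 7) * (a - (49 / 50)) ^ 1 * ((21 / 20) - a) ^ 1 * (x - 0) ^ 1 * (1 - x) ^ 3
      + (181592 / 49) * (a - (49 / 50)) ^ 1 * ((21 / 20) - a) ^ 1 * (x - 0) ^ 2 * (1 - x) ^ 2
      + (48488 / 49) * (a - (49 / 50)) ^ 1 * ((21 / 20) - a) ^ 1 * (x - 0) ^ 3 * (1 - x) ^ 1
      + (9452 / 49) * (a - (49 / 50)) ^ 1 * ((21 / 20) - a) ^ 1 * (x - 0) ^ 4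
      + 765 * (a - (49 / 50)) ^ 2 * (1 - x) ^ 4
      + (19620 / 7) * (a - (49 / 50)) ^ 2 * (x - 0) ^ 1 * (1 - x) ^ 3
      + (98510 / 49) * (a - (49 / 50)) ^ 2 * (x - 0) ^ 2 * (1 - x) ^ 2
      + (20940 / 49) * (a - (49 / 50)) ^ 2 * (x - 0) ^ 3 * (1 - x) ^ 1
      + (785 / 49) * (a - (49 / 50)) ^ 2 * (x - 0) ^ 4 := by
    ring
  rw [← e] at h
  linarith

theorem epair_i3 (a x : ℝ) (h1 : 49 / 50 ≤ a) (h2 : a ≤ 21 / 20) (h3 : 0 ≤ x) (h4 : x ≤ 1) :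
    2 * (86 / 5) * (a - x / 2 + x ^ 2 / 4) ^ 2 ≤ 20 * a ^ 2 + 89 / 5 * (a - x) ^ 2 := by
  exact epair_i3_r a x h1 h2 h3 h4

theorem epair_i4_q (u v x y : ℝ) (hu : 0 ≤ u) (hv : 0 ≤ v) (hx : 0 ≤ x) (hy : 0 ≤ y) :
    0 ≤
    (8379 / 5) * v ^ 2 * y ^ 4 + (30996 / 5) * v ^ 2 * x ^ 1 * y ^ 3
      + (24994 / 5) * v ^ 2 * x ^ 2 * y ^ 2 + (7716 / 5) * v ^ 2 * x ^ 3 * y ^ 1
      + (1039 / 5) * v ^ 2 * x ^ 4 + (17556 / 5) * u ^ 1 * v ^ 1 * y ^ 4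
      + (65064 / 5) * u ^ 1 * v ^ 1 * x ^ 1 * y ^ 3
      + (52696 / 5) * u ^ 1 * v ^ 1 * x ^ 2 * y ^ 2
      + (14824 / 5) * u ^ 1 * v ^ 1 * x ^ 3 * y ^ 1 + (1036 / 5) * u ^ 1 * v ^ 1 * x ^ 4
      + (9196 / 5) * u ^ 2 * y ^ 4 + (34144 / 5) * u ^ 2 * x ^ 1 * y ^ 3
      + (27816 / 5) * u ^ 2 * x ^ 2 * y ^ 2 + (7184 / 5) * u ^ 2 * x ^ 3 * y ^ 1
      + (16 / 5) * u ^ 2 * x ^ 4 := by
  positivity

theorem epair_i4_r (a x : ℝ) (h1 : 21 / 20 ≤ a) (h2 : a ≤ 11 / 10) (h3 : 0 ≤ x) (h4 : x ≤ 1) :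
    2 * (86 / 5) * (a - x / 2 + x ^ 2 / 4) ^ 2 ≤ (102 / 5) * a ^ 2 + 89 / 5 * (a - x) ^ 2 := by
  have h := epair_i4_q (a - (21 / 20)) ((11 / 10) - a) (x - 0) (1 - x) (by linarith) (by linarith) (by linarith)
    (by linarith)
  have e : (102 / 5) * a ^ 2 + 89 / 5 * (a - x) ^ 2 - 2 * (86 / 5) * (a - x / 2 + x ^ 2 / 4) ^ 2 =
    (8379 / 5) * ((11 / 10) - a) ^ 2 * (1 - x) ^ 4
      + (30996 / 5) * ((11 / 10) - a) ^ 2 * (x - 0) ^ 1 * (1 - x) ^ 3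
      + (24994 / 5) * ((11 / 10) - a) ^ 2 * (x - 0) ^ 2 * (1 - x) ^ 2
      + (7716 / 5) * ((11 / 10) - a) ^ 2 * (x - 0) ^ 3 * (1 - x) ^ 1
      + (1039 / 5) * ((11 / 10) - a) ^ 2 * (x - 0) ^ 4
      + (17556 / 5) * (a - (21 / 20)) ^ 1 * ((11 / 10) - a) ^ 1 * (1 - x) ^ 4
      + (65064 / 5) * (a - (21 / 20)) ^ 1 * ((11 / 10) - a) ^ 1 * (x - 0) ^ 1 * (1 - x) ^ 3
      + (52696 / 5) * (a - (21 / 20)) ^ 1 * ((11 / 10) - a) ^ 1 * (x - 0) ^ 2 * (1 - x) ^ 2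
      + (14824 / 5) * (a - (21 / 20)) ^ 1 * ((11 / 10) - a) ^ 1 * (x - 0) ^ 3 * (1 - x) ^ 1
      + (1036 / 5) * (a - (21 / 20)) ^ 1 * ((11 / 10) - a) ^ 1 * (x - 0) ^ 4
      + (9196 / 5) * (a - (21 / 20)) ^ 2 * (1 - x) ^ 4
      + (34144 / 5) * (a - (21 / 20)) ^ 2 * (x - 0) ^ 1 * (1 - x) ^ 3
      + (27816 / 5) * (a - (21 / 20)) ^ 2 * (x - 0) ^ 2 * (1 - x) ^ 2
      + (7184 / 5) * (a - (21 / 20)) ^ 2 * (x - 0) ^ 3 * (1 - x) ^ 1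
      + (16 / 5) * (a - (21 / 20)) ^ 2 * (x - 0) ^ 4 := by
    ring
  rw [← e] at h
  linarith

theorem epair_i4 (a x : ℝ) (h1 : 21 / 20 ≤ a) (h2 : a ≤ 11 / 10) (h3 : 0 ≤ x) (h4 : x ≤ 1) :
    2 * (86 / 5) * (a - x / 2 + x ^ 2 / 4) ^ 2 ≤ (102 / 5) * a ^ 2 + 89 / 5 * (a - x) ^ 2 := by
  exact epair_i4_r a x h1 h2 h3 h4

theorem epair_i5_q (u v x y : ℝ) (hu : 0 ≤ u) (hv : 0 ≤ v) (hx : 0 ≤ x) (hy : 0 ≤ y) :
    0 ≤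
    (12705 / 4) * v ^ 2 * y ^ 4 + 11880 * v ^ 2 * x ^ 1 * y ^ 3
      + (21015 / 2) * v ^ 2 * x ^ 2 * y ^ 2 + 3455 * v ^ 2 * x ^ 3 * y ^ 1
      + (615 / 2) * v ^ 2 * x ^ 4 + (13167 / 2) * u ^ 1 * v ^ 1 * y ^ 4
      + 24654 * u ^ 1 * v ^ 1 * x ^ 1 * y ^ 3 + 21881 * u ^ 1 * v ^ 1 * x ^ 2 * y ^ 2
      + 6884 * u ^ 1 * v ^ 1 * x ^ 3 * y ^ 1 + 386 * u ^ 1 * v ^ 1 * x ^ 4
      + (68229 / 20) * u ^ 2 * y ^ 4 + (63954 / 5) * u ^ 2 * x ^ 1 * y ^ 3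
      + (113987 / 10) * u ^ 2 * x ^ 2 * y ^ 2 + (17229 / 5) * u ^ 2 * x ^ 3 * y ^ 1
      + (827 / 10) * u ^ 2 * x ^ 4 := by
  positivity

theorem epair_i5_r (a x : ℝ) (h1 : 11 / 10 ≤ a) (h2 : a ≤ 57 / 50) (h3 : 0 ≤ x) (h4 : x ≤ 1) :
    2 * (86 / 5) * (a - x / 2 + x ^ 2 / 4) ^ 2 ≤ (104 / 5) * a ^ 2 + 89 / 5 * (a - x) ^ 2 := by
  have h := epair_i5_q (a - (11 / 10)) ((57 / 50) - a) (x - 0) (1 - x) (by linarith) (by linarith) (by linarith)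
    (by linarith)
  have e : (104 / 5) * a ^ 2 + 89 / 5 * (a - x) ^ 2 - 2 * (86 / 5) * (a - x / 2 + x ^ 2 / 4) ^ 2 =
    (12705 / 4) * ((57 / 50) - a) ^ 2 * (1 - x) ^ 4
      + 11880 * ((57 / 50) - a) ^ 2 * (x - 0) ^ 1 * (1 - x) ^ 3
      + (21015 / 2) * ((57 / 50) - a) ^ 2 * (x - 0) ^ 2 * (1 - x) ^ 2
      + 3455 * ((57 / 50) - a) ^ 2 * (x - 0) ^ 3 * (1 - x) ^ 1
      + (615 / 2) * ((57 / 50) - a) ^ 2 * (x - 0) ^ 4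
      + (13167 / 2) * (a - (11 / 10)) ^ 1 * ((57 / 50) - a) ^ 1 * (1 - x) ^ 4
      + 24654 * (a - (11 / 10)) ^ 1 * ((57 / 50) - a) ^ 1 * (x - 0) ^ 1 * (1 - x) ^ 3
      + 21881 * (a - (11 / 10)) ^ 1 * ((57 / 50) - a) ^ 1 * (x - 0) ^ 2 * (1 - x) ^ 2
      + 6884 * (a - (11 / 10)) ^ 1 * ((57 / 50) - a) ^ 1 * (x - 0) ^ 3 * (1 - x) ^ 1
      + 386 * (a - (11 / 10)) ^ 1 * ((57 / 50) - a) ^ 1 * (x - 0) ^ 4
      + (68229 / 20) * (a - (11 / 10)) ^ 2 * (1 - x) ^ 4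
      + (63954 / 5) * (a - (11 / 10)) ^ 2 * (x - 0) ^ 1 * (1 - x) ^ 3
      + (113987 / 10) * (a - (11 / 10)) ^ 2 * (x - 0) ^ 2 * (1 - x) ^ 2
      + (17229 / 5) * (a - (11 / 10)) ^ 2 * (x - 0) ^ 3 * (1 - x) ^ 1
      + (827 / 10) * (a - (11 / 10)) ^ 2 * (x - 0) ^ 4 := by
    ring
  rw [← e] at h
  linarith

theorem epair_i5 (a x : ℝ) (h1 : 11 / 10 ≤ a) (h2 : a ≤ 57 / 50) (h3 : 0 ≤ x) (h4 : x ≤ 1) :
    2 * (86 / 5) * (a - x / 2 + x ^ 2 / 4) ^ 2 ≤ (104 / 5) * a ^ 2 + 89 / 5 * (a - x) ^ 2 := by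
  exact epair_i5_r a x h1 h2 h3 h4

theorem epair_i6_q (u v x y : ℝ) (hu : 0 ≤ u) (hv : 0 ≤ v) (hx : 0 ≤ x) (hy : 0 ≤ y) :
    0 ≤
    (731025 / 32) * v ^ 2 * y ^ 4 + (688275 / 8) * v ^ 2 * x ^ 1 * y ^ 3
      + (1286075 / 16) * v ^ 2 * x ^ 2 * y ^ 2 + (221025 / 8) * v ^ 2 * x ^ 3 * y ^ 1
      + (65275 / 32) * v ^ 2 * x ^ 4 + (741285 / 16) * u ^ 1 * v ^ 1 * y ^ 4
      + (698235 / 4) * u ^ 1 * v ^ 1 * x ^ 1 * y ^ 3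
      + (1306455 / 8) * u ^ 1 * v ^ 1 * x ^ 2 * y ^ 2
      + (221785 / 4) * u ^ 1 * v ^ 1 * x ^ 3 * y ^ 1 + (57135 / 16) * u ^ 1 * v ^ 1 * x ^ 4
      + (751689 / 32) * u ^ 2 * y ^ 4 + (708339 / 8) * u ^ 2 * x ^ 1 * y ^ 3
      + (1327267 / 16) * u ^ 2 * x ^ 2 * y ^ 2 + (222689 / 8) * u ^ 2 * x ^ 3 * y ^ 1
      + (49139 / 32) * u ^ 2 * x ^ 4 := by
  positivity

theorem epair_i6_r (a x : ℝ) (h1 : 57 / 50 ≤ a) (h2 : a ≤ 289 / 250) (h3 : 0 ≤ x) (h4 : x ≤ 1) :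
    2 * (86 / 5) * (a - x / 2 + x ^ 2 / 4) ^ 2 ≤ (211 / 10) * a ^ 2 + 89 / 5 * (a - x) ^ 2 := by
  have h := epair_i6_q (a - (57 / 50)) ((289 / 250) - a) (x - 0) (1 - x) (by linarith) (by linarith) (by linarith)
    (by linarith)
  have e : (211 / 10) * a ^ 2 + 89 / 5 * (a - x) ^ 2 - 2 * (86 / 5) * (a - x / 2 + x ^ 2 / 4) ^ 2 =
    (731025 / 32) * ((289 / 250) - a) ^ 2 * (1 - x) ^ 4
      + (688275 / 8) * ((289 / 250) - a) ^ 2 * (x - 0) ^ 1 * (1 - x) ^ 3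
      + (1286075 / 16) * ((289 / 250) - a) ^ 2 * (x - 0) ^ 2 * (1 - x) ^ 2
      + (221025 / 8) * ((289 / 250) - a) ^ 2 * (x - 0) ^ 3 * (1 - x) ^ 1
      + (65275 / 32) * ((289 / 250) - a) ^ 2 * (x - 0) ^ 4
      + (741285 / 16) * (a - (57 / 50)) ^ 1 * ((289 / 250) - a) ^ 1 * (1 - x) ^ 4
      + (698235 / 4) * (a - (57 / 50)) ^ 1 * ((289 / 250) - a) ^ 1 * (x - 0) ^ 1 * (1 - x) ^ 3
      + (1306455 / 8) * (a - (57 / 50)) ^ 1 * ((289 / 250) - a) ^ 1 * (x - 0) ^ 2 * (1 - x) ^ 2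
      + (221785 / 4) * (a - (57 / 50)) ^ 1 * ((289 / 250) - a) ^ 1 * (x - 0) ^ 3 * (1 - x) ^ 1
      + (57135 / 16) * (a - (57 / 50)) ^ 1 * ((289 / 250) - a) ^ 1 * (x - 0) ^ 4
      + (751689 / 32) * (a - (57 / 50)) ^ 2 * (1 - x) ^ 4
      + (708339 / 8) * (a - (57 / 50)) ^ 2 * (x - 0) ^ 1 * (1 - x) ^ 3
      + (1327267 / 16) * (a - (57 / 50)) ^ 2 * (x - 0) ^ 2 * (1 - x) ^ 2
      + (222689 / 8) * (a - (57 / 50)) ^ 2 * (x - 0) ^ 3 * (1 - x) ^ 1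
      + (49139 / 32) * (a - (57 / 50)) ^ 2 * (x - 0) ^ 4 := by
    ring
  rw [← e] at h
  linarith

theorem epair_i6 (a x : ℝ) (h1 : 57 / 50 ≤ a) (h2 : a ≤ 289 / 250) (h3 : 0 ≤ x) (h4 : x ≤ 1) :
    2 * (86 / 5) * (a - x / 2 + x ^ 2 / 4) ^ 2 ≤ (211 / 10) * a ^ 2 + 89 / 5 * (a - x) ^ 2 := by
  exact epair_i6_r a x h1 h2 h3 h4

theorem epair_ii1_q (u v x y : ℝ) (hu : 0 ≤ u) (hv : 0 ≤ v) (hx : 0 ≤ x) (hy : 0 ≤ y) :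
    0 ≤
    (128000 / 6561) * v ^ 4 * y ^ 8 + (256000 / 2187) * v ^ 4 * x ^ 1 * y ^ 7
      + (2048000 / 6561) * v ^ 4 * x ^ 2 * y ^ 6 + (4624000 / 6561) * v ^ 4 * x ^ 3 * y ^ 5
      + (3332000 / 2187) * v ^ 4 * x ^ 4 * y ^ 4 + (14992000 / 6561) * v ^ 4 * x ^ 5 * y ^ 3
      + (13064000 / 6561) * v ^ 4 * x ^ 6 * y ^ 2 + (1984000 / 2187) * v ^ 4 * x ^ 7 * y ^ 1
      + (1100000 / 6561) * v ^ 4 * x ^ 8 + (742400 / 6561) * u ^ 1 * v ^ 3 * y ^ 8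
      + (1561600 / 2187) * u ^ 1 * v ^ 3 * x ^ 1 * y ^ 7
      + (11864000 / 6561) * u ^ 1 * v ^ 3 * x ^ 2 * y ^ 6
      + (19561600 / 6561) * u ^ 1 * v ^ 3 * x ^ 3 * y ^ 5
      + (10184000 / 2187) * u ^ 1 * v ^ 3 * x ^ 4 * y ^ 4
      + (41478400 / 6561) * u ^ 1 * v ^ 3 * x ^ 5 * y ^ 3
      + (36372800 / 6561) * u ^ 1 * v ^ 3 * x ^ 6 * y ^ 2
      + (5680000 / 2187) * u ^ 1 * v ^ 3 * x ^ 7 * y ^ 1
      + (3233600 / 6561) * u ^ 1 * v ^ 3 * x ^ 8 + (520960 / 2187) * u ^ 2 * v ^ 2 * y ^ 8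
      + (1141760 / 729) * u ^ 2 * v ^ 2 * x ^ 1 * y ^ 7
      + (8735680 / 2187) * u ^ 2 * v ^ 2 * x ^ 2 * y ^ 6
      + (12248960 / 2187) * u ^ 2 * v ^ 2 * x ^ 3 * y ^ 5
      + (4326400 / 729) * u ^ 2 * v ^ 2 * x ^ 4 * y ^ 4
      + (13429760 / 2187) * u ^ 2 * v ^ 2 * x ^ 5 * y ^ 3
      + (11212480 / 2187) * u ^ 2 * v ^ 2 * x ^ 6 * y ^ 2
      + (1804160 / 729) * u ^ 2 * v ^ 2 * x ^ 7 * y ^ 1
      + (1068160 / 2187) * u ^ 2 * v ^ 2 * x ^ 8 + (1410560 / 6561) * u ^ 3 * v ^ 1 * y ^ 8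
      + (3189760 / 2187) * u ^ 3 * v ^ 1 * x ^ 1 * y ^ 7
      + (25014080 / 6561) * u ^ 3 * v ^ 1 * x ^ 2 * y ^ 6
      + (33304960 / 6561) * u ^ 3 * v ^ 1 * x ^ 3 * y ^ 5
      + (8734400 / 2187) * u ^ 3 * v ^ 1 * x ^ 4 * y ^ 4
      + (16111360 / 6561) * u ^ 3 * v ^ 1 * x ^ 5 * y ^ 3
      + (10412480 / 6561) * u ^ 3 * v ^ 1 * x ^ 6 * y ^ 2
      + (1720960 / 2187) * u ^ 3 * v ^ 1 * x ^ 7 * y ^ 1
      + (1108160 / 6561) * u ^ 3 * v ^ 1 * x ^ 8 + (462080 / 6561) * u ^ 4 * y ^ 8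
      + (1070080 / 2187) * u ^ 4 * x ^ 1 * y ^ 7 + (8623040 / 6561) * u ^ 4 * x ^ 2 * y ^ 6
      + (11495680 / 6561) * u ^ 4 * x ^ 3 * y ^ 5 + (2607200 / 2187) * u ^ 4 * x ^ 4 * y ^ 4
      + (2308480 / 6561) * u ^ 4 * x ^ 5 * y ^ 3 + (83840 / 6561) * u ^ 4 * x ^ 6 * y ^ 2
      + (4480 / 2187) * u ^ 4 * x ^ 7 * y ^ 1 + (37280 / 6561) * u ^ 4 * x ^ 8 := by
  positivity

theorem epair_ii1_r (a x : ℝ) (h1 : 1 / 2 ≤ a) (h2 : a ≤ 19 / 20) (h3 : 0 ≤ x) (h4 : x ≤ 1) :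
    2 * (81 / 5) * (a - x / 2 + x ^ 2 / 4) ^ 2 ≤ (89 / 5) * a ^ 2 + 89 / 5 * (a - x) ^ 2 := by
  have h := epair_ii1_q (a - (1 / 2)) ((19 / 20) - a) (x - 0) (1 - x) (by linarith) (by linarith) (by linarith)
    (by linarith)
  have e : (89 / 5) * a ^ 2 + 89 / 5 * (a - x) ^ 2 - 2 * (81 / 5) * (a - x / 2 + x ^ 2 / 4) ^ 2 =
    (128000 / 6561) * ((19 / 20) - a) ^ 4 * (1 - x) ^ 8
      + (256000 / 2187) * ((19 / 20) - a) ^ 4 * (x - 0) ^ 1 * (1 - x) ^ 7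
      + (2048000 / 6561) * ((19 / 20) - a) ^ 4 * (x - 0) ^ 2 * (1 - x) ^ 6
      + (4624000 / 6561) * ((19 / 20) - a) ^ 4 * (x - 0) ^ 3 * (1 - x) ^ 5
      + (3332000 / 2187) * ((19 / 20) - a) ^ 4 * (x - 0) ^ 4 * (1 - x) ^ 4
      + (14992000 / 6561) * ((19 / 20) - a) ^ 4 * (x - 0) ^ 5 * (1 - x) ^ 3
      + (13064000 / 6561) * ((19 / 20) - a) ^ 4 * (x - 0) ^ 6 * (1 - x) ^ 2
      + (1984000 / 2187) * ((19 / 20) - a) ^ 4 * (x - 0) ^ 7 * (1 - x) ^ 1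
      + (1100000 / 6561) * ((19 / 20) - a) ^ 4 * (x - 0) ^ 8
      + (742400 / 6561) * (a - (1 / 2)) ^ 1 * ((19 / 20) - a) ^ 3 * (1 - x) ^ 8
      + (1561600 / 2187) * (a - (1 / 2)) ^ 1 * ((19 / 20) - a) ^ 3 * (x - 0) ^ 1 * (1 - x) ^ 7
      + (11864000 / 6561) * (a - (1 / 2)) ^ 1 * ((19 / 20) - a) ^ 3 * (x - 0) ^ 2 * (1 - x) ^ 6
      + (19561600 / 6561) * (a - (1 / 2)) ^ 1 * ((19 / 20) - a) ^ 3 * (x - 0) ^ 3 * (1 - x) ^ 5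
      + (10184000 / 2187) * (a - (1 / 2)) ^ 1 * ((19 / 20) - a) ^ 3 * (x - 0) ^ 4 * (1 - x) ^ 4
      + (41478400 / 6561) * (a - (1 / 2)) ^ 1 * ((19 / 20) - a) ^ 3 * (x - 0) ^ 5 * (1 - x) ^ 3
      + (36372800 / 6561) * (a - (1 / 2)) ^ 1 * ((19 / 20) - a) ^ 3 * (x - 0) ^ 6 * (1 - x) ^ 2
      + (5680000 / 2187) * (a - (1 / 2)) ^ 1 * ((19 / 20) - a) ^ 3 * (x - 0) ^ 7 * (1 - x) ^ 1
      + (3233600 / 6561) * (a - (1 / 2)) ^ 1 * ((19 / 20) - a) ^ 3 * (x - 0) ^ 8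
      + (520960 / 2187) * (a - (1 / 2)) ^ 2 * ((19 / 20) - a) ^ 2 * (1 - x) ^ 8
      + (1141760 / 729) * (a - (1 / 2)) ^ 2 * ((19 / 20) - a) ^ 2 * (x - 0) ^ 1 * (1 - x) ^ 7
      + (8735680 / 2187) * (a - (1 / 2)) ^ 2 * ((19 / 20) - a) ^ 2 * (x - 0) ^ 2 * (1 - x) ^ 6
      + (12248960 / 2187) * (a - (1 / 2)) ^ 2 * ((19 / 20) - a) ^ 2 * (x - 0) ^ 3 * (1 - x) ^ 5
      + (4326400 / 729) * (a - (1 / 2)) ^ 2 * ((19 / 20) - a) ^ 2 * (x - 0) ^ 4 * (1 - x) ^ 4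
      + (13429760 / 2187) * (a - (1 / 2)) ^ 2 * ((19 / 20) - a) ^ 2 * (x - 0) ^ 5 * (1 - x) ^ 3
      + (11212480 / 2187) * (a - (1 / 2)) ^ 2 * ((19 / 20) - a) ^ 2 * (x - 0) ^ 6 * (1 - x) ^ 2
      + (1804160 / 729) * (a - (1 / 2)) ^ 2 * ((19 / 20) - a) ^ 2 * (x - 0) ^ 7 * (1 - x) ^ 1
      + (1068160 / 2187) * (a - (1 / 2)) ^ 2 * ((19 / 20) - a) ^ 2 * (x - 0) ^ 8
      + (1410560 / 6561) * (a - (1 / 2)) ^ 3 * ((19 / 20) - a) ^ 1 * (1 - x) ^ 8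
      + (3189760 / 2187) * (a - (1 / 2)) ^ 3 * ((19 / 20) - a) ^ 1 * (x - 0) ^ 1 * (1 - x) ^ 7
      + (25014080 / 6561) * (a - (1 / 2)) ^ 3 * ((19 / 20) - a) ^ 1 * (x - 0) ^ 2 * (1 - x) ^ 6
      + (33304960 / 6561) * (a - (1 / 2)) ^ 3 * ((19 / 20) - a) ^ 1 * (x - 0) ^ 3 * (1 - x) ^ 5
      + (8734400 / 2187) * (a - (1 / 2)) ^ 3 * ((19 / 20) - a) ^ 1 * (x - 0) ^ 4 * (1 - x) ^ 4
      + (16111360 / 6561) * (a - (1 / 2)) ^ 3 * ((19 / 20) - a) ^ 1 * (x - 0) ^ 5 * (1 - x) ^ 3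
      + (10412480 / 6561) * (a - (1 / 2)) ^ 3 * ((19 / 20) - a) ^ 1 * (x - 0) ^ 6 * (1 - x) ^ 2
      + (1720960 / 2187) * (a - (1 / 2)) ^ 3 * ((19 / 20) - a) ^ 1 * (x - 0) ^ 7 * (1 - x) ^ 1
      + (1108160 / 6561) * (a - (1 / 2)) ^ 3 * ((19 / 20) - a) ^ 1 * (x - 0) ^ 8
      + (462080 / 6561) * (a - (1 / 2)) ^ 4 * (1 - x) ^ 8
      + (1070080 / 2187) * (a - (1 / 2)) ^ 4 * (x - 0) ^ 1 * (1 - x) ^ 7
      + (8623040 / 6561) * (a - (1 / 2)) ^ 4 * (x - 0) ^ 2 * (1 - x) ^ 6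
      + (11495680 / 6561) * (a - (1 / 2)) ^ 4 * (x - 0) ^ 3 * (1 - x) ^ 5
      + (2607200 / 2187) * (a - (1 / 2)) ^ 4 * (x - 0) ^ 4 * (1 - x) ^ 4
      + (2308480 / 6561) * (a - (1 / 2)) ^ 4 * (x - 0) ^ 5 * (1 - x) ^ 3
      + (83840 / 6561) * (a - (1 / 2)) ^ 4 * (x - 0) ^ 6 * (1 - x) ^ 2
      + (4480 / 2187) * (a - (1 / 2)) ^ 4 * (x - 0) ^ 7 * (1 - x) ^ 1
      + (37280 / 6561) * (a - (1 / 2)) ^ 4 * (x - 0) ^ 8 := by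
    ring
  rw [← e] at h
  linarith

theorem epair_ii1 (a x : ℝ) (h1 : 1 / 2 ≤ a) (h2 : a ≤ 19 / 20) (h3 : 0 ≤ x) (h4 : x ≤ 1) :
    2 * (81 / 5) * (a - x / 2 + x ^ 2 / 4) ^ 2 ≤ (89 / 5) * a ^ 2 + 89 / 5 * (a - x) ^ 2 := by
  exact epair_ii1_r a x h1 h2 h3 h4

theorem epair_ii2_q (u v x y : ℝ) (hu : 0 ≤ u) (hv : 0 ≤ v) (hx : 0 ≤ x) (hy : 0 ≤ y) :
    0 ≤
    (167865 / 784) * v ^ 2 * y ^ 4 + (137465 / 196) * v ^ 2 * x ^ 1 * y ^ 3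
      + (207395 / 392) * v ^ 2 * x ^ 2 * y ^ 2 + (43865 / 196) * v ^ 2 * x ^ 3 * y ^ 1
      + (61665 / 784) * v ^ 2 * x ^ 4 + (192603 / 392) * u ^ 1 * v ^ 1 * y ^ 4
      + (159963 / 98) * u ^ 1 * v ^ 1 * x ^ 1 * y ^ 3
      + (245489 / 196) * u ^ 1 * v ^ 1 * x ^ 2 * y ^ 2
      + (39203 / 98) * u ^ 1 * v ^ 1 * x ^ 3 * y ^ 1 + (32083 / 392) * u ^ 1 * v ^ 1 * x ^ 4
      + (1104933 / 3920) * u ^ 2 * y ^ 4 + (930533 / 980) * u ^ 2 * x ^ 1 * y ^ 3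
      + (1472599 / 1960) * u ^ 2 * x ^ 2 * y ^ 2 + (190933 / 980) * u ^ 2 * x ^ 3 * y ^ 1
      + (30733 / 3920) * u ^ 2 * x ^ 4 := by
  positivity

theorem epair_ii2_r (a x : ℝ) (h1 : 19 / 20 ≤ a) (h2 : a ≤ 109 / 100) (h3 : 0 ≤ x) (h4 : x ≤ 1) :
    2 * (81 / 5) * (a - x / 2 + x ^ 2 / 4) ^ 2 ≤ (77 / 4) * a ^ 2 + 89 / 5 * (a - x) ^ 2 := by
  have h := epair_ii2_q (a - (19 / 20)) ((109 / 100) - a) (x - 0) (1 - x) (by linarith) (by linarith) (by linarith)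
    (by linarith)
  have e : (77 / 4) * a ^ 2 + 89 / 5 * (a - x) ^ 2 - 2 * (81 / 5) * (a - x / 2 + x ^ 2 / 4) ^ 2 =
    (167865 / 784) * ((109 / 100) - a) ^ 2 * (1 - x) ^ 4
      + (137465 / 196) * ((109 / 100) - a) ^ 2 * (x - 0) ^ 1 * (1 - x) ^ 3
      + (207395 / 392) * ((109 / 100) - a) ^ 2 * (x - 0) ^ 2 * (1 - x) ^ 2
      + (43865 / 196) * ((109 / 100) - a) ^ 2 * (x - 0) ^ 3 * (1 - x) ^ 1
      + (61665 / 784) * ((109 / 100) - a) ^ 2 * (x - 0) ^ 4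
      + (192603 / 392) * (a - (19 / 20)) ^ 1 * ((109 / 100) - a) ^ 1 * (1 - x) ^ 4
      + (159963 / 98) * (a - (19 / 20)) ^ 1 * ((109 / 100) - a) ^ 1 * (x - 0) ^ 1 * (1 - x) ^ 3
      + (245489 / 196) * (a - (19 / 20)) ^ 1 * ((109 / 100) - a) ^ 1 * (x - 0) ^ 2 * (1 - x) ^ 2
      + (39203 / 98) * (a - (19 / 20)) ^ 1 * ((109 / 100) - a) ^ 1 * (x - 0) ^ 3 * (1 - x) ^ 1
      + (32083 / 392) * (a - (19 / 20)) ^ 1 * ((109 / 100) - a) ^ 1 * (x - 0) ^ 4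
      + (1104933 / 3920) * (a - (19 / 20)) ^ 2 * (1 - x) ^ 4
      + (930533 / 980) * (a - (19 / 20)) ^ 2 * (x - 0) ^ 1 * (1 - x) ^ 3
      + (1472599 / 1960) * (a - (19 / 20)) ^ 2 * (x - 0) ^ 2 * (1 - x) ^ 2
      + (190933 / 980) * (a - (19 / 20)) ^ 2 * (x - 0) ^ 3 * (1 - x) ^ 1
      + (30733 / 3920) * (a - (19 / 20)) ^ 2 * (x - 0) ^ 4 := by
    ring
  rw [← e] at h
  linarith

theorem epair_ii2 (a x : ℝ) (h1 : 19 / 20 ≤ a) (h2 : a ≤ 109 / 100) (h3 : 0 ≤ x) (h4 : x ≤ 1) :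
    2 * (81 / 5) * (a - x / 2 + x ^ 2 / 4) ^ 2 ≤ (77 / 4) * a ^ 2 + 89 / 5 * (a - x) ^ 2 := by
  exact epair_ii2_r a x h1 h2 h3 h4

theorem epair_ii3_q (u v x y : ℝ) (hu : 0 ≤ u) (hv : 0 ≤ v) (hx : 0 ≤ x) (hy : 0 ≤ y) :
    0 ≤
    (1223743 / 1280) * v ^ 2 * y ^ 4 + (1049343 / 320) * v ^ 2 * x ^ 1 * y ^ 3
      + (1829029 / 640) * v ^ 2 * x ^ 2 * y ^ 2 + (309743 / 320) * v ^ 2 * x ^ 3 * y ^ 1
      + (149543 / 1280) * v ^ 2 * x ^ 4 + (1313559 / 640) * u ^ 1 * v ^ 1 * y ^ 4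
      + (1132759 / 160) * u ^ 1 * v ^ 1 * x ^ 1 * y ^ 3
      + (1995277 / 320) * u ^ 1 * v ^ 1 * x ^ 2 * y ^ 2
      + (315559 / 160) * u ^ 1 * v ^ 1 * x ^ 3 * y ^ 1 + (84159 / 640) * u ^ 1 * v ^ 1 * x ^ 4
      + (1409967 / 1280) * u ^ 2 * y ^ 4 + (1222767 / 320) * u ^ 2 * x ^ 1 * y ^ 3
      + (2181301 / 640) * u ^ 2 * x ^ 2 * y ^ 2 + (327967 / 320) * u ^ 2 * x ^ 3 * y ^ 1
      + (25367 / 1280) * u ^ 2 * x ^ 4 := by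
  positivity

theorem epair_ii3_r (a x : ℝ) (h1 : 109 / 100 ≤ a) (h2 : a ≤ 117 / 100) (h3 : 0 ≤ x) (h4 : x ≤ 1) :
    2 * (81 / 5) * (a - x / 2 + x ^ 2 / 4) ^ 2 ≤ (79 / 4) * a ^ 2 + 89 / 5 * (a - x) ^ 2 := by
  have h := epair_ii3_q (a - (109 / 100)) ((117 / 100) - a) (x - 0) (1 - x) (by linarith) (by linarith) (by linarith)
    (by linarith)
  have e : (79 / 4) * a ^ 2 + 89 / 5 * (a - x) ^ 2 - 2 * (81 / 5) * (a - x / 2 + x ^ 2 / 4) ^ 2 =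
    (1223743 / 1280) * ((117 / 100) - a) ^ 2 * (1 - x) ^ 4
      + (1049343 / 320) * ((117 / 100) - a) ^ 2 * (x - 0) ^ 1 * (1 - x) ^ 3
      + (1829029 / 640) * ((117 / 100) - a) ^ 2 * (x - 0) ^ 2 * (1 - x) ^ 2
      + (309743 / 320) * ((117 / 100) - a) ^ 2 * (x - 0) ^ 3 * (1 - x) ^ 1
      + (149543 / 1280) * ((117 / 100) - a) ^ 2 * (x - 0) ^ 4
      + (1313559 / 640) * (a - (109 / 100)) ^ 1 * ((117 / 100) - a) ^ 1 * (1 - x) ^ 4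
      + (1132759 / 160) * (a - (109 / 100)) ^ 1 * ((117 / 100) - a) ^ 1 * (x - 0) ^ 1 * (1 - x) ^ 3
      + (1995277 / 320) * (a - (109 / 100)) ^ 1 * ((117 / 100) - a) ^ 1 * (x - 0) ^ 2 * (1 - x) ^ 2
      + (315559 / 160) * (a - (109 / 100)) ^ 1 * ((117 / 100) - a) ^ 1 * (x - 0) ^ 3 * (1 - x) ^ 1
      + (84159 / 640) * (a - (109 / 100)) ^ 1 * ((117 / 100) - a) ^ 1 * (x - 0) ^ 4
      + (1409967 / 1280) * (a - (109 / 100)) ^ 2 * (1 - x) ^ 4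
      + (1222767 / 320) * (a - (109 / 100)) ^ 2 * (x - 0) ^ 1 * (1 - x) ^ 3
      + (2181301 / 640) * (a - (109 / 100)) ^ 2 * (x - 0) ^ 2 * (1 - x) ^ 2
      + (327967 / 320) * (a - (109 / 100)) ^ 2 * (x - 0) ^ 3 * (1 - x) ^ 1
      + (25367 / 1280) * (a - (109 / 100)) ^ 2 * (x - 0) ^ 4 := by
    ring
  rw [← e] at h
  linarith

theorem epair_ii3 (a x : ℝ) (h1 : 109 / 100 ≤ a) (h2 : a ≤ 117 / 100) (h3 : 0 ≤ x) (h4 : x ≤ 1) :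
    2 * (81 / 5) * (a - x / 2 + x ^ 2 / 4) ^ 2 ≤ (79 / 4) * a ^ 2 + 89 / 5 * (a - x) ^ 2 := by
  exact epair_ii3_r a x h1 h2 h3 h4

theorem epair_ii4_q (u v x y : ℝ) (hu : 0 ≤ u) (hv : 0 ≤ v) (hx : 0 ≤ x) (hy : 0 ≤ y) :
    0 ≤
    (150579 / 128) * v ^ 2 * y ^ 4 + (131859 / 32) * v ^ 2 * x ^ 1 * y ^ 3
      + (246877 / 64) * v ^ 2 * x ^ 2 * y ^ 2 + (42379 / 32) * v ^ 2 * x ^ 3 * y ^ 1
      + (12119 / 128) * v ^ 2 * x ^ 4 + (160875 / 64) * u ^ 1 * v ^ 1 * y ^ 4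
      + (141515 / 16) * u ^ 1 * v ^ 1 * x ^ 1 * y ^ 3
      + (267445 / 32) * u ^ 1 * v ^ 1 * x ^ 2 * y ^ 2
      + (44275 / 16) * u ^ 1 * v ^ 1 * x ^ 3 * y ^ 1 + (6895 / 64) * u ^ 1 * v ^ 1 * x ^ 4
      + (171875 / 128) * u ^ 2 * y ^ 4 + (151875 / 32) * u ^ 2 * x ^ 1 * y ^ 3
      + (290125 / 64) * u ^ 2 * x ^ 2 * y ^ 2 + (46875 / 32) * u ^ 2 * x ^ 3 * y ^ 1
      + (2375 / 128) * u ^ 2 * x ^ 4 := by
  positivity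

theorem epair_ii4_r (a x : ℝ) (h1 : 117 / 100 ≤ a) (h2 : a ≤ 5 / 4) (h3 : 0 ≤ x) (h4 : x ≤ 1) :
    2 * (81 / 5) * (a - x / 2 + x ^ 2 / 4) ^ 2 ≤ (201 / 10) * a ^ 2 + 89 / 5 * (a - x) ^ 2 := by
  have h := epair_ii4_q (a - (117 / 100)) ((5 / 4) - a) (x - 0) (1 - x) (by linarith) (by linarith) (by linarith)
    (by linarith)
  have e : (201 / 10) * a ^ 2 + 89 / 5 * (a - x) ^ 2 - 2 * (81 / 5) * (a - x / 2 + x ^ 2 / 4) ^ 2 =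
    (150579 / 128) * ((5 / 4) - a) ^ 2 * (1 - x) ^ 4
      + (131859 / 32) * ((5 / 4) - a) ^ 2 * (x - 0) ^ 1 * (1 - x) ^ 3
      + (246877 / 64) * ((5 / 4) - a) ^ 2 * (x - 0) ^ 2 * (1 - x) ^ 2
      + (42379 / 32) * ((5 / 4) - a) ^ 2 * (x - 0) ^ 3 * (1 - x) ^ 1
      + (12119 / 128) * ((5 / 4) - a) ^ 2 * (x - 0) ^ 4
      + (160875 / 64) * (a - (117 / 100)) ^ 1 * ((5 / 4) - a) ^ 1 * (1 - x) ^ 4
      + (141515 / 16) * (a - (117 / 100)) ^ 1 * ((5 / 4) - a) ^ 1 * (x - 0) ^ 1 * (1 - x) ^ 3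
      + (267445 / 32) * (a - (117 / 100)) ^ 1 * ((5 / 4) - a) ^ 1 * (x - 0) ^ 2 * (1 - x) ^ 2
      + (44275 / 16) * (a - (117 / 100)) ^ 1 * ((5 / 4) - a) ^ 1 * (x - 0) ^ 3 * (1 - x) ^ 1
      + (6895 / 64) * (a - (117 / 100)) ^ 1 * ((5 / 4) - a) ^ 1 * (x - 0) ^ 4
      + (171875 / 128) * (a - (117 / 100)) ^ 2 * (1 - x) ^ 4
      + (151875 / 32) * (a - (117 / 100)) ^ 2 * (x - 0) ^ 1 * (1 - x) ^ 3
      + (290125 / 64) * (a - (117 / 100)) ^ 2 * (x - 0) ^ 2 * (1 - x) ^ 2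
      + (46875 / 32) * (a - (117 / 100)) ^ 2 * (x - 0) ^ 3 * (1 - x) ^ 1
      + (2375 / 128) * (a - (117 / 100)) ^ 2 * (x - 0) ^ 4 := by
    ring
  rw [← e] at h
  linarith

theorem epair_ii4 (a x : ℝ) (h1 : 117 / 100 ≤ a) (h2 : a ≤ 5 / 4) (h3 : 0 ≤ x) (h4 : x ≤ 1) :
    2 * (81 / 5) * (a - x / 2 + x ^ 2 / 4) ^ 2 ≤ (201 / 10) * a ^ 2 + 89 / 5 * (a - x) ^ 2 := by
  exact epair_ii4_r a x h1 h2 h3 h4

theorem epair_ii5_q (u v x y : ℝ) (hu : 0 ≤ u) (hv : 0 ≤ v) (hx : 0 ≤ x) (hy : 0 ≤ y) :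
    0 ≤
    (184375 / 968) * v ^ 2 * y ^ 4 + (164375 / 242) * v ^ 2 * x ^ 1 * y ^ 3
      + (327625 / 484) * v ^ 2 * x ^ 2 * y ^ 2 + (59375 / 242) * v ^ 2 * x ^ 3 * y ^ 1
      + (14875 / 968) * v ^ 2 * x ^ 4 + (216825 / 484) * u ^ 1 * v ^ 1 * y ^ 4
      + (195065 / 121) * u ^ 1 * v ^ 1 * x ^ 1 * y ^ 3
      + (396595 / 242) * u ^ 1 * v ^ 1 * x ^ 2 * y ^ 2
      + (68725 / 121) * u ^ 1 * v ^ 1 * x ^ 3 * y ^ 1 + (4645 / 484) * u ^ 1 * v ^ 1 * x ^ 4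
      + (1274931 / 4840) * u ^ 2 * y ^ 4 + (1157331 / 1210) * u ^ 2 * x ^ 1 * y ^ 3
      + (2413493 / 2420) * u ^ 2 * x ^ 2 * y ^ 2 + (418931 / 1210) * u ^ 2 * x ^ 3 * y ^ 1
      + (631 / 4840) * u ^ 2 * x ^ 4 := by
  positivity

theorem epair_ii5_r (a x : ℝ) (h1 : 5 / 4 ≤ a) (h2 : a ≤ 147 / 100) (h3 : 0 ≤ x) (h4 : x ≤ 1) :
    2 * (81 / 5) * (a - x / 2 + x ^ 2 / 4) ^ 2 ≤ (41 / 2) * a ^ 2 + 89 / 5 * (a - x) ^ 2 := by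
  have h := epair_ii5_q (a - (5 / 4)) ((147 / 100) - a) (x - 0) (1 - x) (by linarith) (by linarith) (by linarith)
    (by linarith)
  have e : (41 / 2) * a ^ 2 + 89 / 5 * (a - x) ^ 2 - 2 * (81 / 5) * (a - x / 2 + x ^ 2 / 4) ^ 2 =
    (184375 / 968) * ((147 / 100) - a) ^ 2 * (1 - x) ^ 4
      + (164375 / 242) * ((147 / 100) - a) ^ 2 * (x - 0) ^ 1 * (1 - x) ^ 3
      + (327625 / 484) * ((147 / 100) - a) ^ 2 * (x - 0) ^ 2 * (1 - x) ^ 2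
      + (59375 / 242) * ((147 / 100) - a) ^ 2 * (x - 0) ^ 3 * (1 - x) ^ 1
      + (14875 / 968) * ((147 / 100) - a) ^ 2 * (x - 0) ^ 4
      + (216825 / 484) * (a - (5 / 4)) ^ 1 * ((147 / 100) - a) ^ 1 * (1 - x) ^ 4
      + (195065 / 121) * (a - (5 / 4)) ^ 1 * ((147 / 100) - a) ^ 1 * (x - 0) ^ 1 * (1 - x) ^ 3
      + (396595 / 242) * (a - (5 / 4)) ^ 1 * ((147 / 100) - a) ^ 1 * (x - 0) ^ 2 * (1 - x) ^ 2
      + (68725 / 121) * (a - (5 / 4)) ^ 1 * ((147 / 100) - a) ^ 1 * (x - 0) ^ 3 * (1 - x) ^ 1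
      + (4645 / 484) * (a - (5 / 4)) ^ 1 * ((147 / 100) - a) ^ 1 * (x - 0) ^ 4
      + (1274931 / 4840) * (a - (5 / 4)) ^ 2 * (1 - x) ^ 4
      + (1157331 / 1210) * (a - (5 / 4)) ^ 2 * (x - 0) ^ 1 * (1 - x) ^ 3
      + (2413493 / 2420) * (a - (5 / 4)) ^ 2 * (x - 0) ^ 2 * (1 - x) ^ 2
      + (418931 / 1210) * (a - (5 / 4)) ^ 2 * (x - 0) ^ 3 * (1 - x) ^ 1
      + (631 / 4840) * (a - (5 / 4)) ^ 2 * (x - 0) ^ 4 := by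
    ring
  rw [← e] at h
  linarith

theorem epair_ii5 (a x : ℝ) (h1 : 5 / 4 ≤ a) (h2 : a ≤ 147 / 100) (h3 : 0 ≤ x) (h4 : x ≤ 1) :
    2 * (81 / 5) * (a - x / 2 + x ^ 2 / 4) ^ 2 ≤ (41 / 2) * a ^ 2 + 89 / 5 * (a - x) ^ 2 := by
  exact epair_ii5_r a x h1 h2 h3 h4

theorem epair_ii6_q (u v x y : ℝ) (hu : 0 ≤ u) (hv : 0 ≤ v) (hx : 0 ≤ x) (hy : 0 ≤ y) :
    0 ≤
    (16422840 / 5041) * v ^ 2 * y ^ 4 + (60987360 / 5041) * v ^ 2 * x ^ 1 * y ^ 3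
      + (70311040 / 5041) * v ^ 2 * x ^ 2 * y ^ 2 + (31451360 / 5041) * v ^ 2 * x ^ 3 * y ^ 1
      + (3679840 / 5041) * v ^ 2 * x ^ 4 + (34432104 / 5041) * u ^ 1 * v ^ 1 * y ^ 4
      + (128093216 / 5041) * u ^ 1 * v ^ 1 * x ^ 1 * y ^ 3
      + (148308824 / 5041) * u ^ 1 * v ^ 1 * x ^ 2 * y ^ 2
      + (66266416 / 5041) * u ^ 1 * v ^ 1 * x ^ 3 * y ^ 1
      + (7568704 / 5041) * u ^ 1 * v ^ 1 * x ^ 4 + (90237878 / 25205) * u ^ 2 * y ^ 4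
      + (336295512 / 25205) * u ^ 2 * x ^ 1 * y ^ 3
      + (391138268 / 25205) * u ^ 2 * x ^ 2 * y ^ 2
      + (174841512 / 25205) * u ^ 2 * x ^ 3 * y ^ 1 + (19635878 / 25205) * u ^ 2 * x ^ 4 := by
  positivity

theorem epair_ii6_r (a x : ℝ) (h1 : 147 / 100 ≤ a) (h2 : a ≤ 1541 / 1000) (h3 : 0 ≤ x) (h4 : x ≤ 1) :
    2 * (81 / 5) * (a - x / 2 + x ^ 2 / 4) ^ 2 ≤ (111 / 5) * a ^ 2 + 89 / 5 * (a - x) ^ 2 := by
  have h := epair_ii6_q (a - (147 / 100)) ((1541 / 1000) - a) (x - 0) (1 - x) (by linarith) (by linarith) (by linarith)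
    (by linarith)
  have e : (111 / 5) * a ^ 2 + 89 / 5 * (a - x) ^ 2 - 2 * (81 / 5) * (a - x / 2 + x ^ 2 / 4) ^ 2 =
    (16422840 / 5041) * ((1541 / 1000) - a) ^ 2 * (1 - x) ^ 4
      + (60987360 / 5041) * ((1541 / 1000) - a) ^ 2 * (x - 0) ^ 1 * (1 - x) ^ 3
      + (70311040 / 5041) * ((1541 / 1000) - a) ^ 2 * (x - 0) ^ 2 * (1 - x) ^ 2
      + (31451360 / 5041) * ((1541 / 1000) - a) ^ 2 * (x - 0) ^ 3 * (1 - x) ^ 1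
      + (3679840 / 5041) * ((1541 / 1000) - a) ^ 2 * (x - 0) ^ 4
      + (34432104 / 5041) * (a - (147 / 100)) ^ 1 * ((1541 / 1000) - a) ^ 1 * (1 - x) ^ 4
      + (128093216 / 5041) * (a - (147 / 100)) ^ 1 * ((1541 / 1000) - a) ^ 1 * (x - 0) ^ 1 * (1 - x) ^ 3
      + (148308824 / 5041) * (a - (147 / 100)) ^ 1 * ((1541 / 1000) - a) ^ 1 * (x - 0) ^ 2 * (1 - x) ^ 2
      + (66266416 / 5041) * (a - (147 / 100)) ^ 1 * ((1541 / 1000) - a) ^ 1 * (x - 0) ^ 3 * (1 - x) ^ 1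
      + (7568704 / 5041) * (a - (147 / 100)) ^ 1 * ((1541 / 1000) - a) ^ 1 * (x - 0) ^ 4
      + (90237878 / 25205) * (a - (147 / 100)) ^ 2 * (1 - x) ^ 4
      + (336295512 / 25205) * (a - (147 / 100)) ^ 2 * (x - 0) ^ 1 * (1 - x) ^ 3
      + (391138268 / 25205) * (a - (147 / 100)) ^ 2 * (x - 0) ^ 2 * (1 - x) ^ 2
      + (174841512 / 25205) * (a - (147 / 100)) ^ 2 * (x - 0) ^ 3 * (1 - x) ^ 1
      + (19635878 / 25205) * (a - (147 / 100)) ^ 2 * (x - 0) ^ 4 := by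
    ring
  rw [← e] at h
  linarith

theorem epair_ii6 (a x : ℝ) (h1 : 147 / 100 ≤ a) (h2 : a ≤ 1541 / 1000) (h3 : 0 ≤ x) (h4 : x ≤ 1) :
    2 * (81 / 5) * (a - x / 2 + x ^ 2 / 4) ^ 2 ≤ (111 / 5) * a ^ 2 + 89 / 5 * (a - x) ^ 2 := by
  exact epair_ii6_r a x h1 h2 h3 h4

theorem epair_iii1_q (u v x y : ℝ) (hu : 0 ≤ u) (hv : 0 ≤ v) (hx : 0 ≤ x) (hy : 0 ≤ y) :
    0 ≤
    (14000 / 3481) * v ^ 2 * y ^ 4 + (28000 / 3481) * v ^ 2 * x ^ 1 * y ^ 3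
      + (28000 / 3481) * v ^ 2 * x ^ 2 * y ^ 2 + (103000 / 3481) * v ^ 2 * x ^ 3 * y ^ 1
      + (70250 / 3481) * v ^ 2 * x ^ 4 + (61040 / 3481) * u ^ 1 * v ^ 1 * y ^ 4
      + (155120 / 3481) * u ^ 1 * v ^ 1 * x ^ 1 * y ^ 3
      + (66620 / 3481) * u ^ 1 * v ^ 1 * x ^ 2 * y ^ 2
      + (62040 / 3481) * u ^ 1 * v ^ 1 * x ^ 3 * y ^ 1 + (52000 / 3481) * u ^ 1 * v ^ 1 * x ^ 4
      + (332668 / 17405) * u ^ 2 * y ^ 4 + (1025472 / 17405) * u ^ 2 * x ^ 1 * y ^ 3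
      + (777908 / 17405) * u ^ 2 * x ^ 2 * y ^ 2 + (185072 / 17405) * u ^ 2 * x ^ 3 * y ^ 1
      + (6218 / 17405) * u ^ 2 * x ^ 4 := by
  positivity

theorem epair_iii1_r (a x : ℝ) (h1 : 1 / 2 ≤ a) (h2 : a ≤ 109 / 100) (h3 : 0 ≤ x) (h4 : x ≤ 1) :
    2 * 15 * (a - x / 2 + x ^ 2 / 4) ^ 2 ≤ (89 / 5) * a ^ 2 + 89 / 5 * (a - x) ^ 2 := by
  have h := epair_iii1_q (a - (1 / 2)) ((109 / 100) - a) (x - 0) (1 - x) (by linarith) (by linarith) (by linarith)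
    (by linarith)
  have e : (89 / 5) * a ^ 2 + 89 / 5 * (a - x) ^ 2 - 2 * 15 * (a - x / 2 + x ^ 2 / 4) ^ 2 =
    (14000 / 3481) * ((109 / 100) - a) ^ 2 * (1 - x) ^ 4
      + (28000 / 3481) * ((109 / 100) - a) ^ 2 * (x - 0) ^ 1 * (1 - x) ^ 3
      + (28000 / 3481) * ((109 / 100) - a) ^ 2 * (x - 0) ^ 2 * (1 - x) ^ 2
      + (103000 / 3481) * ((109 / 100) - a) ^ 2 * (x - 0) ^ 3 * (1 - x) ^ 1
      + (70250 / 3481) * ((109 / 100) - a) ^ 2 * (x - 0) ^ 4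
      + (61040 / 3481) * (a - (1 / 2)) ^ 1 * ((109 / 100) - a) ^ 1 * (1 - x) ^ 4
      + (155120 / 3481) * (a - (1 / 2)) ^ 1 * ((109 / 100) - a) ^ 1 * (x - 0) ^ 1 * (1 - x) ^ 3
      + (66620 / 3481) * (a - (1 / 2)) ^ 1 * ((109 / 100) - a) ^ 1 * (x - 0) ^ 2 * (1 - x) ^ 2
      + (62040 / 3481) * (a - (1 / 2)) ^ 1 * ((109 / 100) - a) ^ 1 * (x - 0) ^ 3 * (1 - x) ^ 1
      + (52000 / 3481) * (a - (1 / 2)) ^ 1 * ((109 / 100) - a) ^ 1 * (x - 0) ^ 4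
      + (332668 / 17405) * (a - (1 / 2)) ^ 2 * (1 - x) ^ 4
      + (1025472 / 17405) * (a - (1 / 2)) ^ 2 * (x - 0) ^ 1 * (1 - x) ^ 3
      + (777908 / 17405) * (a - (1 / 2)) ^ 2 * (x - 0) ^ 2 * (1 - x) ^ 2
      + (185072 / 17405) * (a - (1 / 2)) ^ 2 * (x - 0) ^ 3 * (1 - x) ^ 1
      + (6218 / 17405) * (a - (1 / 2)) ^ 2 * (x - 0) ^ 4 := by
    ring
  rw [← e] at h
  linarith

theorem epair_iii1 (a x : ℝ) (h1 : 1 / 2 ≤ a) (h2 : a ≤ 109 / 100) (h3 : 0 ≤ x) (h4 : x ≤ 1) :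
    2 * 15 * (a - x / 2 + x ^ 2 / 4) ^ 2 ≤ (89 / 5) * a ^ 2 + 89 / 5 * (a - x) ^ 2 := by
  exact epair_iii1_r a x h1 h2 h3 h4

theorem epair_iii2_q (u v x y : ℝ) (hu : 0 ≤ u) (hv : 0 ≤ v) (hx : 0 ≤ x) (hy : 0 ≤ y) :
    0 ≤
    (796027 / 11560) * v ^ 2 * y ^ 4 + (643427 / 2890) * v ^ 2 * x ^ 1 * y ^ 3
      + (1169981 / 5780) * v ^ 2 * x ^ 2 * y ^ 2 + (13131 / 170) * v ^ 2 * x ^ 3 * y ^ 1
      + (143127 / 11560) * v ^ 2 * x ^ 4 + (1044329 / 5780) * u ^ 1 * v ^ 1 * y ^ 4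
      + (867929 / 1445) * u ^ 1 * v ^ 1 * x ^ 1 * y ^ 3
      + (1644587 / 2890) * u ^ 1 * v ^ 1 * x ^ 2 * y ^ 2
      + (16037 / 85) * u ^ 1 * v ^ 1 * x ^ 3 * y ^ 1 + (41229 / 5780) * u ^ 1 * v ^ 1 * x ^ 4
      + (1370083 / 11560) * u ^ 2 * y ^ 4 + (1169883 / 2890) * u ^ 2 * x ^ 1 * y ^ 3
      + (2351549 / 5780) * u ^ 2 * x ^ 2 * y ^ 2 + (23499 / 170) * u ^ 2 * x ^ 3 * y ^ 1
      + (16783 / 11560) * u ^ 2 * x ^ 4 := by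
  positivity

theorem epair_iii2_r (a x : ℝ) (h1 : 109 / 100 ≤ a) (h2 : a ≤ 143 / 100) (h3 : 0 ≤ x) (h4 : x ≤ 1) :
    2 * 15 * (a - x / 2 + x ^ 2 / 4) ^ 2 ≤ (189 / 10) * a ^ 2 + 89 / 5 * (a - x) ^ 2 := by
  have h := epair_iii2_q (a - (109 / 100)) ((143 / 100) - a) (x - 0) (1 - x) (by linarith) (by linarith) (by linarith)
    (by linarith)
  have e : (189 / 10) * a ^ 2 + 89 / 5 * (a - x) ^ 2 - 2 * 15 * (a - x / 2 + x ^ 2 / 4) ^ 2 =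
    (796027 / 11560) * ((143 / 100) - a) ^ 2 * (1 - x) ^ 4
      + (643427 / 2890) * ((143 / 100) - a) ^ 2 * (x - 0) ^ 1 * (1 - x) ^ 3
      + (1169981 / 5780) * ((143 / 100) - a) ^ 2 * (x - 0) ^ 2 * (1 - x) ^ 2
      + (13131 / 170) * ((143 / 100) - a) ^ 2 * (x - 0) ^ 3 * (1 - x) ^ 1
      + (143127 / 11560) * ((143 / 100) - a) ^ 2 * (x - 0) ^ 4
      + (1044329 / 5780) * (a - (109 / 100)) ^ 1 * ((143 / 100) - a) ^ 1 * (1 - x) ^ 4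
      + (867929 / 1445) * (a - (109 / 100)) ^ 1 * ((143 / 100) - a) ^ 1 * (x - 0) ^ 1 * (1 - x) ^ 3
      + (1644587 / 2890) * (a - (109 / 100)) ^ 1 * ((143 / 100) - a) ^ 1 * (x - 0) ^ 2 * (1 - x) ^ 2
      + (16037 / 85) * (a - (109 / 100)) ^ 1 * ((143 / 100) - a) ^ 1 * (x - 0) ^ 3 * (1 - x) ^ 1
      + (41229 / 5780) * (a - (109 / 100)) ^ 1 * ((143 / 100) - a) ^ 1 * (x - 0) ^ 4
      + (1370083 / 11560) * (a - (109 / 100)) ^ 2 * (1 - x) ^ 4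
      + (1169883 / 2890) * (a - (109 / 100)) ^ 2 * (x - 0) ^ 1 * (1 - x) ^ 3
      + (2351549 / 5780) * (a - (109 / 100)) ^ 2 * (x - 0) ^ 2 * (1 - x) ^ 2
      + (23499 / 170) * (a - (109 / 100)) ^ 2 * (x - 0) ^ 3 * (1 - x) ^ 1
      + (16783 / 11560) * (a - (109 / 100)) ^ 2 * (x - 0) ^ 4 := by
    ring
  rw [← e] at h
  linarith

theorem epair_iii2 (a x : ℝ) (h1 : 109 / 100 ≤ a) (h2 : a ≤ 143 / 100) (h3 : 0 ≤ x) (h4 : x ≤ 1) :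
    2 * 15 * (a - x / 2 + x ^ 2 / 4) ^ 2 ≤ (189 / 10) * a ^ 2 + 89 / 5 * (a - x) ^ 2 := by
  exact epair_iii2_r a x h1 h2 h3 h4

theorem epair_iii3_q (u v x y : ℝ) (hu : 0 ≤ u) (hv : 0 ≤ v) (hx : 0 ≤ x) (hy : 0 ≤ y) :
    0 ≤
    (1738165 / 71824) * v ^ 2 * y ^ 4 + (13641485 / 161604) * v ^ 2 * x ^ 1 * y ^ 3
      + (29343455 / 323208) * v ^ 2 * x ^ 2 * y ^ 2 + (5937485 / 161604) * v ^ 2 * x ^ 3 * y ^ 1
      + (703495 / 215472) * v ^ 2 * x ^ 4 + (2715427 / 35912) * u ^ 1 * v ^ 1 * y ^ 4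
      + (21874043 / 80802) * u ^ 1 * v ^ 1 * x ^ 1 * y ^ 3
      + (49337729 / 161604) * u ^ 1 * v ^ 1 * x ^ 2 * y ^ 2
      + (10029443 / 80802) * u ^ 1 * v ^ 1 * x ^ 3 * y ^ 1
      + (291627 / 35912) * u ^ 1 * v ^ 1 * x ^ 4 + (21210713 / 359120) * u ^ 2 * y ^ 4
      + (175258417 / 808020) * u ^ 2 * x ^ 1 * y ^ 3
      + (420836251 / 1616040) * u ^ 2 * x ^ 2 * y ^ 2
      + (95332417 / 808020) * u ^ 2 * x ^ 3 * y ^ 1 + (13473139 / 1077360) * u ^ 2 * x ^ 4 := by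
  positivity

theorem epair_iii3_r (a x : ℝ) (h1 : 143 / 100 ≤ a) (h2 : a ≤ 1117 / 500) (h3 : 0 ≤ x) (h4 : x ≤ 1) :
    2 * 15 * (a - x / 2 + x ^ 2 / 4) ^ 2 ≤ (397 / 20) * a ^ 2 + 89 / 5 * (a - x) ^ 2 := by
  have h := epair_iii3_q (a - (143 / 100)) ((1117 / 500) - a) (x - 0) (1 - x) (by linarith) (by linarith) (by linarith)
    (by linarith)
  have e : (397 / 20) * a ^ 2 + 89 / 5 * (a - x) ^ 2 - 2 * 15 * (a - x / 2 + x ^ 2 / 4) ^ 2 =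
    (1738165 / 71824) * ((1117 / 500) - a) ^ 2 * (1 - x) ^ 4
      + (13641485 / 161604) * ((1117 / 500) - a) ^ 2 * (x - 0) ^ 1 * (1 - x) ^ 3
      + (29343455 / 323208) * ((1117 / 500) - a) ^ 2 * (x - 0) ^ 2 * (1 - x) ^ 2
      + (5937485 / 161604) * ((1117 / 500) - a) ^ 2 * (x - 0) ^ 3 * (1 - x) ^ 1
      + (703495 / 215472) * ((1117 / 500) - a) ^ 2 * (x - 0) ^ 4
      + (2715427 / 35912) * (a - (143 / 100)) ^ 1 * ((1117 / 500) - a) ^ 1 * (1 - x) ^ 4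
      + (21874043 / 80802) * (a - (143 / 100)) ^ 1 * ((1117 / 500) - a) ^ 1 * (x - 0) ^ 1 * (1 - x) ^ 3
      + (49337729 / 161604) * (a - (143 / 100)) ^ 1 * ((1117 / 500) - a) ^ 1 * (x - 0) ^ 2 * (1 - x) ^ 2
      + (10029443 / 80802) * (a - (143 / 100)) ^ 1 * ((1117 / 500) - a) ^ 1 * (x - 0) ^ 3 * (1 - x) ^ 1
      + (291627 / 35912) * (a - (143 / 100)) ^ 1 * ((1117 / 500) - a) ^ 1 * (x - 0) ^ 4
      + (21210713 / 359120) * (a - (143 / 100)) ^ 2 * (1 - x) ^ 4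
      + (175258417 / 808020) * (a - (143 / 100)) ^ 2 * (x - 0) ^ 1 * (1 - x) ^ 3
      + (420836251 / 1616040) * (a - (143 / 100)) ^ 2 * (x - 0) ^ 2 * (1 - x) ^ 2
      + (95332417 / 808020) * (a - (143 / 100)) ^ 2 * (x - 0) ^ 3 * (1 - x) ^ 1
      + (13473139 / 1077360) * (a - (143 / 100)) ^ 2 * (x - 0) ^ 4 := by
    ring
  rw [← e] at h
  linarith

theorem epair_iii3 (a x : ℝ) (h1 : 143 / 100 ≤ a) (h2 : a ≤ 1117 / 500) (h3 : 0 ≤ x) (h4 : x ≤ 1) :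
    2 * 15 * (a - x / 2 + x ^ 2 / 4) ^ 2 ≤ (397 / 20) * a ^ 2 + 89 / 5 * (a - x) ^ 2 := by
  exact epair_iii3_r a x h1 h2 h3 h4

/-! ### the inequality for a pair, scaled variables -/

/-- the scaled inequality for a pair -/
def epair_Good (g k kB a : ℝ) : Prop :=
  (∀ x, 0 ≤ x → x ≤ 1 → x ≤ a →
    2 * g * (a - x / 2 + x ^ 2 / 4) ^ 2 ≤ k * a ^ 2 + kB * (a - x) ^ 2) ∧
  ∀ x, x ≤ 1 → a ≤ x → 0 ≤ a - x / 2 + x ^ 2 / 4 →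
    2 * g * (a - x / 2 + x ^ 2 / 4) ^ 2 ≤ k * a ^ 2

theorem epair_neg (g k a : ℝ) (hg : 0 ≤ g) (hk : g / 2 * (1 + a / 2) ^ 2 ≤ k) (x : ℝ)
    (hx : x ≤ 1) (hax : a ≤ x) (hs : 0 ≤ a - x / 2 + x ^ 2 / 4) :
    2 * g * (a - x / 2 + x ^ 2 / 4) ^ 2 ≤ k * a ^ 2 := by
  have h1 : a - x / 2 + x ^ 2 / 4 ≤ a / 2 * (1 + a / 2) := by
    nlinarith [mul_nonneg (sub_nonneg.2 hax) (show (0 : ℝ) ≤ 1 / 2 - (x + a) / 4 by linarith)]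
  have h2 : (a - x / 2 + x ^ 2 / 4) ^ 2 ≤ (a / 2 * (1 + a / 2)) ^ 2 := pow_le_pow_left₀ hs h1 2
  calc 2 * g * (a - x / 2 + x ^ 2 / 4) ^ 2 ≤ 2 * g * (a / 2 * (1 + a / 2)) ^ 2 :=
        mul_le_mul_of_nonneg_left h2 (by linarith)
    _ = (g / 2 * (1 + a / 2) ^ 2) * a ^ 2 := by ring
    _ ≤ k * a ^ 2 := mul_le_mul_of_nonneg_right hk (sq_nonneg a)

theorem epair_small (g k a : ℝ) (hg : 0 ≤ g) (hgk : g ≤ k) (ha : 0 ≤ a) (ha2 : a ≤ 1 / 2) :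
    epair_Good g k k a := by
  constructor
  · intro x hx0 hx1 hxa
    have h1 : 2 * (a - x / 2 + x ^ 2 / 4) ^ 2 ≤ a ^ 2 + (a - x) ^ 2 := by
      have e : a ^ 2 + (a - x) ^ 2 - 2 * (a - x / 2 + x ^ 2 / 4) ^ 2 =
          x ^ 2 / 2 * ((1 - 2 * a) + x * (1 - x / 4)) := by ring
      have : 0 ≤ x ^ 2 / 2 * ((1 - 2 * a) + x * (1 - x / 4)) := by
        apply mul_nonneg (by positivity)
        have := mul_nonneg hx0 (show (0 : ℝ) ≤ 1 - x / 4 by linarith)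
        linarith
      linarith
    calc 2 * g * (a - x / 2 + x ^ 2 / 4) ^ 2 = g * (2 * (a - x / 2 + x ^ 2 / 4) ^ 2) := by ring
      _ ≤ g * (a ^ 2 + (a - x) ^ 2) := mul_le_mul_of_nonneg_left h1 hg
      _ ≤ k * (a ^ 2 + (a - x) ^ 2) := mul_le_mul_of_nonneg_right hgk (by positivity)
      _ = k * a ^ 2 + k * (a - x) ^ 2 := by ring
  · refine epair_neg g k a hg ?_
    have h2 : (1 + a / 2) ^ 2 ≤ 2 := by nlinarith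
    nlinarith

theorem epair_mk (g k a : ℝ) (hg : 0 ≤ g)
    (hk : a ≤ 1 → g / 2 * (1 + a / 2) ^ 2 ≤ k)
    (h : ∀ x, 0 ≤ x → x ≤ 1 →
      2 * g * (a - x / 2 + x ^ 2 / 4) ^ 2 ≤ k * a ^ 2 + 89 / 5 * (a - x) ^ 2) :
    epair_Good g k (89 / 5) a :=
  ⟨fun x hx0 hx1 _ => h x hx0 hx1, fun x hx1 hax hs =>
    epair_neg g k a hg (hk (by linarith)) x hx1 hax hs⟩

theorem epair_main (H A B g k kB gA gB : ℝ) (hH : 0 < H) (h1 : 25 * k * A ^ 2 ≤ gA)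
    (h2 : 0 ≤ B → 25 * kB * B ^ 2 ≤ gB) (h3 : 0 ≤ gB) (hk : 0 ≤ k) (hBA : B ≤ A)
    (hD : A - B ≤ 1 / H) (hG : epair_Good g k kB (H * A)) :
    50 * g * max 0 ((A + B) / 2 + H * (A - B) ^ 2 / 4) ^ 2 ≤ gA + gB := by
  set S := (A + B) / 2 + H * (A - B) ^ 2 / 4 with hS
  have hgA : 0 ≤ gA := le_trans (by positivity) h1
  rcases le_total S 0 with hS0 | hS0
  · rw [max_eq_left hS0]
    simp only [ne_eq, OfNat.ofNat_ne_zero, not_false_eq_true, zero_pow, mul_zero]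
    linarith
  rw [max_eq_right hS0]
  have hx0 : 0 ≤ H * (A - B) := mul_nonneg hH.le (by linarith)
  have hx1 : H * (A - B) ≤ 1 := by
    have := mul_le_mul_of_nonneg_left hD hH.le
    rwa [mul_one_div, div_self hH.ne'] at this
  have es : H * A - H * (A - B) / 2 + (H * (A - B)) ^ 2 / 4 = H * S := by
    rw [hS]
    ring
  have hH2 : 0 < H ^ 2 := by positivity
  have key : 50 * g * (H * S) ^ 2 ≤ H ^ 2 * (gA + gB) := by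
    rcases le_total 0 B with hB | hB
    · have h4 := hG.1 (H * (A - B)) hx0 hx1 (by nlinarith)
      rw [es] at h4
      have e5 : H * A - H * (A - B) = H * B := by ring
      rw [e5] at h4
      have h6 := h2 hB
      have h7 := mul_le_mul_of_nonneg_left h1 hH2.le
      have h8 := mul_le_mul_of_nonneg_left h6 hH2.le
      calc 50 * g * (H * S) ^ 2 = 25 * (2 * g * (H * S) ^ 2) := by ring
        _ ≤ 25 * (k * (H * A) ^ 2 + kB * (H * B) ^ 2) :=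
            mul_le_mul_of_nonneg_left h4 (by norm_num)
        _ = H ^ 2 * (25 * k * A ^ 2) + H ^ 2 * (25 * kB * B ^ 2) := by ring
        _ ≤ H ^ 2 * gA + H ^ 2 * gB := add_le_add h7 h8
        _ = H ^ 2 * (gA + gB) := by ring
    · have h4 := hG.2 (H * (A - B)) hx1 (by nlinarith) (by
        rw [es]
        exact mul_nonneg hH.le hS0)
      rw [es] at h4
      have h7 := mul_le_mul_of_nonneg_left h1 hH2.le
      calc 50 * g * (H * S) ^ 2 = 25 * (2 * g * (H * S) ^ 2) := by ring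
        _ ≤ 25 * (k * (H * A) ^ 2) := mul_le_mul_of_nonneg_left h4 (by norm_num)
        _ = H ^ 2 * (25 * k * A ^ 2) := by ring
        _ ≤ H ^ 2 * gA := h7
        _ ≤ H ^ 2 * (gA + gB) := mul_le_mul_of_nonneg_left (by linarith) hH2.le
  have e6 : 50 * g * (H * S) ^ 2 = H ^ 2 * (50 * g * S ^ 2) := by ring
  rw [e6] at key
  exact le_of_mul_le_mul_left key hH2

/-- lower bounds of `gE` from the fifth clause -/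
theorem epair_kap (hG : ST_EG) (k A : ℝ) (h1 : 11 / 50 ≤ A) (h2 : A ≤ 27 / 50)
    (h3 : (k * A ^ 2 + 1053 / 250) * (77 / 100 - A) ≤ 14 / 5) :
    25 * k * A ^ 2 ≤ gE (77 / 100 - A) := by
  have h4 := (hG A (by linarith) h2).2.2.2.2 h1
  have h5 : (0 : ℝ) < 77 / 100 - A := by linarith
  have h6 : k * A ^ 2 + 1053 / 250 ≤ (14 / 5) / (77 / 100 - A) := by
    rw [le_div_iff₀ h5]
    exact h3
  linarith

theorem epair_gE_zero (u : ℝ) (hu : 77 / 100 ≤ u) : gE u = 0 := by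
  unfold gE wt
  rw [max_eq_left (by linarith), max_eq_left (by linarith)]
  ring

theorem epair_gE_nonneg (hG : ST_EG) (A : ℝ) (h2 : A ≤ 27 / 50) : 0 ≤ gE (77 / 100 - A) := by
  rcases le_total 0 A with h | h
  · exact le_trans (by positivity) (hG A h h2).1
  · rw [epair_gE_zero _ (by linarith)]

/-! ### the three upper ranges -/

theorem epair_range_i (hG : ST_EG) (H A : ℝ) (hH : 0 < H) (hHm : H ≤ 14 / 5) (hA0 : 0 ≤ A)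
    (hA : A ≤ 27 / 50) (ha : H * A ≤ 289 / 250) :
    ∃ k : ℝ, 0 ≤ k ∧ 25 * k * A ^ 2 ≤ gE (77 / 100 - A) ∧ epair_Good (86 / 5) k (89 / 5) (H * A) := by
  have haA : H * A ≤ (14 / 5) * A := mul_le_mul_of_nonneg_right hHm hA0
  have ha0 : 0 ≤ H * A := mul_nonneg hH.le hA0
  rcases le_total (H * A) (1 / 2) with h | h
  · exact ⟨89 / 5, by norm_num, (hG A hA0 hA).1,
      epair_small _ _ _ (by norm_num) (by norm_num) ha0 h⟩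
  rcases le_total (H * A) (81 / 100) with h0 | h0
  · refine ⟨89 / 5, by norm_num, ?_, epair_mk _ _ _ (by norm_num) (fun h1 => by
      have h2 : (1 + H * A / 2) ^ 2 ≤ (1 + (81 / 100) / 2) ^ 2 := by
        apply pow_le_pow_left₀ (by positivity)
        linarith
      have h3 : ((86 / 5) : ℝ) / 2 * (1 + (81 / 100) / 2) ^ 2 ≤ 89 / 5 := by norm_num
      linarith)
      (fun x hx0 hx1 => epair_i1 _ x h h0 hx0 hx1)⟩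
    exact (hG A hA0 hA).1
  rcases le_total (H * A) (49 / 50) with h1 | h1
  · refine ⟨77 / 4, by norm_num, ?_, epair_mk _ _ _ (by norm_num) (fun h1 => by
      have h2 : (1 + H * A / 2) ^ 2 ≤ (1 + (49 / 50) / 2) ^ 2 := by
        apply pow_le_pow_left₀ (by positivity)
        linarith
      have h3 : ((86 / 5) : ℝ) / 2 * (1 + (49 / 50) / 2) ^ 2 ≤ 77 / 4 := by norm_num
      linarith)
      (fun x hx0 hx1 => epair_i2 _ x h0 h1 hx0 hx1)⟩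
    have hA1 : (81 / 280 : ℝ) ≤ A := by linarith
    have hA2 : 0 ≤ A - 81 / 280 := by linarith
    exact epair_kap hG _ A (by linarith) hA (by
      nlinarith [mul_nonneg hA2 (sq_nonneg (A - (673 / 2800))), hA2])
  rcases le_total (H * A) (21 / 20) with h2 | h2
  · refine ⟨20, by norm_num, ?_, epair_mk _ _ _ (by norm_num) (fun h1 => by
      have h2 : (1 + H * A / 2) ^ 2 ≤ (1 + 1 / 2) ^ 2 := by
        apply pow_le_pow_left₀ (by positivity)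
        linarith
      have h3 : ((86 / 5) : ℝ) / 2 * (1 + 1 / 2) ^ 2 ≤ 20 := by norm_num
      linarith)
      (fun x hx0 hx1 => epair_i3 _ x h1 h2 hx0 hx1)⟩
    have hA1 : (7 / 20 : ℝ) ≤ A := by linarith
    have hA2 : 0 ≤ A - 7 / 20 := by linarith
    exact epair_kap hG _ A (by linarith) hA (by
      nlinarith [mul_nonneg hA2 (sq_nonneg (A - (21 / 100))), hA2])
  rcases le_total (H * A) (11 / 10) with h3 | h3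
  · refine ⟨102 / 5, by norm_num, ?_, epair_mk _ _ _ (by norm_num) (fun h1 => by
      exfalso
      linarith)
      (fun x hx0 hx1 => epair_i4 _ x h2 h3 hx0 hx1)⟩
    have hA1 : (3 / 8 : ℝ) ≤ A := by linarith
    have hA2 : 0 ≤ A - 3 / 8 := by linarith
    exact epair_kap hG _ A (by linarith) hA (by
      nlinarith [mul_nonneg hA2 (sq_nonneg (A - (79 / 400))), hA2])
  rcases le_total (H * A) (57 / 50) with h4 | h4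
  · refine ⟨104 / 5, by norm_num, ?_, epair_mk _ _ _ (by norm_num) (fun h1 => by
      exfalso
      linarith)
      (fun x hx0 hx1 => epair_i5 _ x h3 h4 hx0 hx1)⟩
    have hA1 : (11 / 28 : ℝ) ≤ A := by linarith
    have hA2 : 0 ≤ A - 11 / 28 := by linarith
    exact epair_kap hG _ A (by linarith) hA (by
      nlinarith [mul_nonneg hA2 (sq_nonneg (A - (33 / 175))), hA2])
  · refine ⟨211 / 10, by norm_num, ?_, epair_mk _ _ _ (by norm_num) (fun h1 => by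
      exfalso
      linarith)
      (fun x hx0 hx1 => epair_i6 _ x h4 ha hx0 hx1)⟩
    have hA1 : (57 / 140 : ℝ) ≤ A := by linarith
    have hA2 : 0 ≤ A - 57 / 140 := by linarith
    exact epair_kap hG _ A (by linarith) hA (by
      nlinarith [mul_nonneg hA2 (sq_nonneg (A - (127 / 700))), hA2])

theorem epair_range_ii (hG : ST_EG) (H A : ℝ) (hH : 0 < H) (hHm : H ≤ 33 / 10) (hA0 : 0 ≤ A)
    (hA : A ≤ 27 / 50) (ha : H * A ≤ 1541 / 1000) :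
    ∃ k : ℝ, 0 ≤ k ∧ 25 * k * A ^ 2 ≤ gE (77 / 100 - A) ∧ epair_Good (81 / 5) k (89 / 5) (H * A) := by
  have haA : H * A ≤ (33 / 10) * A := mul_le_mul_of_nonneg_right hHm hA0
  have ha0 : 0 ≤ H * A := mul_nonneg hH.le hA0
  rcases le_total (H * A) (1 / 2) with h | h
  · exact ⟨89 / 5, by norm_num, (hG A hA0 hA).1,
      epair_small _ _ _ (by norm_num) (by norm_num) ha0 h⟩
  rcases le_total (H * A) (19 / 20) with h0 | h0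
  · refine ⟨89 / 5, by norm_num, ?_, epair_mk _ _ _ (by norm_num) (fun h1 => by
      have h2 : (1 + H * A / 2) ^ 2 ≤ (1 + (19 / 20) / 2) ^ 2 := by
        apply pow_le_pow_left₀ (by positivity)
        linarith
      have h3 : ((81 / 5) : ℝ) / 2 * (1 + (19 / 20) / 2) ^ 2 ≤ 89 / 5 := by norm_num
      linarith)
      (fun x hx0 hx1 => epair_ii1 _ x h h0 hx0 hx1)⟩
    exact (hG A hA0 hA).1
  rcases le_total (H * A) (109 / 100) with h1 | h1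
  · refine ⟨77 / 4, by norm_num, ?_, epair_mk _ _ _ (by norm_num) (fun h1 => by
      have h2 : (1 + H * A / 2) ^ 2 ≤ (1 + 1 / 2) ^ 2 := by
        apply pow_le_pow_left₀ (by positivity)
        linarith
      have h3 : ((81 / 5) : ℝ) / 2 * (1 + 1 / 2) ^ 2 ≤ 77 / 4 := by norm_num
      linarith)
      (fun x hx0 hx1 => epair_ii2 _ x h0 h1 hx0 hx1)⟩
    have hA1 : (19 / 66 : ℝ) ≤ A := by linarith
    have hA2 : 0 ≤ A - 19 / 66 := by linarith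
    exact epair_kap hG _ A (by linarith) hA (by
      nlinarith [mul_nonneg hA2 (sq_nonneg (A - (1591 / 6600))), hA2])
  rcases le_total (H * A) (117 / 100) with h2 | h2
  · refine ⟨79 / 4, by norm_num, ?_, epair_mk _ _ _ (by norm_num) (fun h1 => by
      exfalso
      linarith)
      (fun x hx0 hx1 => epair_ii3 _ x h1 h2 hx0 hx1)⟩
    have hA1 : (109 / 330 : ℝ) ≤ A := by linarith
    have hA2 : 0 ≤ A - 109 / 330 := by linarith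
    exact epair_kap hG _ A (by linarith) hA (by
      nlinarith [mul_nonneg hA2 (sq_nonneg (A - (1451 / 6600))), hA2])
  rcases le_total (H * A) (5 / 4) with h3 | h3
  · refine ⟨201 / 10, by norm_num, ?_, epair_mk _ _ _ (by norm_num) (fun h1 => by
      exfalso
      linarith)
      (fun x hx0 hx1 => epair_ii4 _ x h2 h3 hx0 hx1)⟩
    have hA1 : (39 / 110 : ℝ) ≤ A := by linarith
    have hA2 : 0 ≤ A - 39 / 110 := by linarith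
    exact epair_kap hG _ A (by linarith) hA (by
      nlinarith [mul_nonneg hA2 (sq_nonneg (A - (457 / 2200))), hA2])
  rcases le_total (H * A) (147 / 100) with h4 | h4
  · refine ⟨41 / 2, by norm_num, ?_, epair_mk _ _ _ (by norm_num) (fun h1 => by
      exfalso
      linarith)
      (fun x hx0 hx1 => epair_ii5 _ x h3 h4 hx0 hx1)⟩
    have hA1 : (25 / 66 : ℝ) ≤ A := by linarith
    have hA2 : 0 ≤ A - 25 / 66 := by linarith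
    exact epair_kap hG _ A (by linarith) hA (by
      nlinarith [mul_nonneg hA2 (sq_nonneg (A - (1291 / 6600))), hA2])
  · refine ⟨111 / 5, by norm_num, ?_, epair_mk _ _ _ (by norm_num) (fun h1 => by
      exfalso
      linarith)
      (fun x hx0 hx1 => epair_ii6 _ x h4 ha hx0 hx1)⟩
    have hA1 : (49 / 110 : ℝ) ≤ A := by linarith
    have hA2 : 0 ≤ A - 49 / 110 := by linarith
    exact epair_kap hG _ A (by linarith) hA (by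
      nlinarith [mul_nonneg hA2 (sq_nonneg (A - (357 / 2200))), hA2])

theorem epair_range_iii (hG : ST_EG) (H A : ℝ) (hH : 0 < H) (hHm : H ≤ 21 / 5) (hA0 : 0 ≤ A)
    (hA : A ≤ 27 / 50) (ha : H * A ≤ 1117 / 500) :
    ∃ k : ℝ, 0 ≤ k ∧ 25 * k * A ^ 2 ≤ gE (77 / 100 - A) ∧ epair_Good (15) k (89 / 5) (H * A) := by
  have haA : H * A ≤ (21 / 5) * A := mul_le_mul_of_nonneg_right hHm hA0
  have ha0 : 0 ≤ H * A := mul_nonneg hH.le hA0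
  rcases le_total (H * A) (1 / 2) with h | h
  · exact ⟨89 / 5, by norm_num, (hG A hA0 hA).1,
      epair_small _ _ _ (by norm_num) (by norm_num) ha0 h⟩
  rcases le_total (H * A) (109 / 100) with h0 | h0
  · refine ⟨89 / 5, by norm_num, ?_, epair_mk _ _ _ (by norm_num) (fun h1 => by
      have h2 : (1 + H * A / 2) ^ 2 ≤ (1 + 1 / 2) ^ 2 := by
        apply pow_le_pow_left₀ (by positivity)
        linarith
      have h3 : ((15) : ℝ) / 2 * (1 + 1 / 2) ^ 2 ≤ 89 / 5 := by norm_num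
      linarith)
      (fun x hx0 hx1 => epair_iii1 _ x h h0 hx0 hx1)⟩
    exact (hG A hA0 hA).1
  rcases le_total (H * A) (143 / 100) with h1 | h1
  · refine ⟨189 / 10, by norm_num, ?_, epair_mk _ _ _ (by norm_num) (fun h1 => by
      exfalso
      linarith)
      (fun x hx0 hx1 => epair_iii2 _ x h0 h1 hx0 hx1)⟩
    have hA1 : (109 / 420 : ℝ) ≤ A := by linarith
    have hA2 : 0 ≤ A - 109 / 420 := by linarith
    exact epair_kap hG _ A (by linarith) hA (by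
      nlinarith [mul_nonneg hA2 (sq_nonneg (A - (134 / 525))), hA2])
  · refine ⟨397 / 20, by norm_num, ?_, epair_mk _ _ _ (by norm_num) (fun h1 => by
      exfalso
      linarith)
      (fun x hx0 hx1 => epair_iii3 _ x h1 ha hx0 hx1)⟩
    have hA1 : (143 / 420 : ℝ) ≤ A := by linarith
    have hA2 : 0 ≤ A - 143 / 420 := by linarith
    exact epair_kap hG _ A (by linarith) hA (by
      nlinarith [mul_nonneg hA2 (sq_nonneg (A - (451 / 2100))), hA2])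


theorem epair_mulH (H A : ℝ) (hH : 0 < H) (hA : A ≤ 77 / 100 - 1 / H) :
    H * A ≤ 77 / 100 * H - 1 := by
  have h1 := mul_le_mul_of_nonneg_left hA hH.le
  have e : H * (77 / 100 - 1 / H) = 77 / 100 * H - 1 := by
    field_simp
  linarith

/-- E_PAIR -/
theorem st_EPAIR (hG : ST_EG) : ST_EPAIR := by
  intro H A B hH1 hH2 hBA hD hA
  have hH : 0 < H := by linarith
  have hinv : (5 : ℝ) / 21 ≤ 1 / H := by
    rw [div_le_div_iff₀ (by norm_num) hH]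
    linarith
  have hA27 : A ≤ 27 / 50 := by linarith
  have hgB : 0 ≤ gE (77 / 100 - B) := epair_gE_nonneg hG B (by linarith)
  have hgA : 0 ≤ gE (77 / 100 - A) := epair_gE_nonneg hG A hA27
  rcases lt_or_ge A 0 with hA0 | hA0
  · have hS : (A + B) / 2 + H * (A - B) ^ 2 / 4 ≤ 0 := by
      have hx1 : H * (A - B) ≤ 1 := by
        have := mul_le_mul_of_nonneg_left hD hH.le
        rwa [mul_one_div, div_self hH.ne'] at this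
      have h1 := mul_nonneg (sub_nonneg.2 hBA) (sub_nonneg.2 hx1)
      nlinarith
    rw [max_eq_left hS]
    simp only [ne_eq, OfNat.ofNat_ne_zero, not_false_eq_true, zero_pow, mul_zero]
    linarith
  have ha := epair_mulH H A hH hA
  have hB1 : 0 ≤ B → 25 * (89 / 5) * B ^ 2 ≤ gE (77 / 100 - B) :=
    fun hB => (hG B hB (by linarith)).1
  have ha0 : 0 ≤ H * A := mul_nonneg hH.le hA0
  have hinvlt : ∀ c : ℝ, 0 < c → H < c → 1 / c ≤ 1 / H := by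
    intro c hc h
    exact one_div_le_one_div_of_le hH h.le
  unfold gam
  split_ifs with c1 c2 c3 c4 c5 c6
  · have h1 := hinvlt _ (by norm_num) c1
    have hA' : A ≤ 77 / 100 - 20 / 31 := by
      rw [show (1 : ℝ) / (31 / 20) = 20 / 31 by norm_num] at h1
      linarith
    exact epair_main H A B 24 (122 / 5) (122 / 5) _ _ hH ((hG A hA0 hA27).2.1 hA')
      (fun hB => (hG B hB (by linarith)).2.1 (by linarith)) hgB (by norm_num) hBA hD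
      (epair_small _ _ _ (by norm_num) (by norm_num) ha0 (by linarith))
  · have h1 := hinvlt _ (by norm_num) c2
    have hA' : A ≤ 29 / 200 := by
      rw [show (1 : ℝ) / (8 / 5) = 5 / 8 by norm_num] at h1
      linarith
    exact epair_main H A B (217 / 10) 22 22 _ _ hH ((hG A hA0 hA27).2.2.1 hA')
      (fun hB => (hG B hB (by linarith)).2.2.1 (by linarith)) hgB (by norm_num) hBA hD
      (epair_small _ _ _ (by norm_num) (by norm_num) ha0 (by linarith))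
  · have h1 := hinvlt _ (by norm_num) c3
    have hA' : A ≤ 77 / 100 - 10 / 17 := by
      rw [show (1 : ℝ) / (17 / 10) = 10 / 17 by norm_num] at h1
      linarith
    exact epair_main H A B (187 / 10) (191 / 10) (191 / 10) _ _ hH ((hG A hA0 hA27).2.2.2.1 hA')
      (fun hB => (hG B hB (by linarith)).2.2.2.1 (by linarith)) hgB (by norm_num) hBA hD
      (epair_small _ _ _ (by norm_num) (by norm_num) ha0 (by linarith))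
  · exact epair_main H A B (35 / 2) (89 / 5) (89 / 5) _ _ hH (hG A hA0 hA27).1 hB1 hgB
      (by norm_num) hBA hD (epair_small _ _ _ (by norm_num) (by norm_num) ha0 (by linarith))
  · obtain ⟨k, hk, h1, h2⟩ := epair_range_i hG H A hH c5.le hA0 hA27 (by linarith)
    exact epair_main H A B (86 / 5) k (89 / 5) _ _ hH h1 hB1 hgB hk hBA hD h2
  · obtain ⟨k, hk, h1, h2⟩ := epair_range_ii hG H A hH c6.le hA0 hA27 (by linarith)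
    exact epair_main H A B (81 / 5) k (89 / 5) _ _ hH h1 hB1 hgB hk hBA hD h2
  · obtain ⟨k, hk, h1, h2⟩ := epair_range_iii hG H A hH hH2 hA0 hA27 (by linarith)
    exact epair_main H A B 15 k (89 / 5) _ _ hH h1 hB1 hgB hk hBA hD h2

end Pool.Agent.Helper19.Un
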